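import Pool.Agent.Lib.MP_fb520c_co.Dent.LocAlg

/-! The control triangle. -/

set_option autoImplicit false

open Complex ComplexConjugate

noncomputable section

namespace Pool.Agent.Lib.MP_fb520c_co.Dent

lemma unimod (b : ℂ) {u : ℂ} (hu : ‖u‖ = 1) : ‖(rho b : ℂ) * u‖ ^ 2 - ‖b‖ ^ 2 = 1 := by
  rw [norm_mul, hu, mul_one, Complex.norm_real, Real.norm_eq_abs, sq_abs, rho_sq]; ring

lemma det_add (a b c d : ℂ) (t : ℝ) : ‖a + t * c‖ ^ 2 - ‖b + t * d‖ ^ 2 =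
    ‖a‖ ^ 2 - ‖b‖ ^ 2 + 2 * t * (conj a * c - b * conj d).re + t ^ 2 * (‖c‖ ^ 2 - ‖d‖ ^ 2) := by
  simp only [nsq, Complex.add_re, Complex.add_im, Complex.sub_re, Complex.mul_re, Complex.mul_im,
    Complex.conj_re, Complex.conj_im, Complex.ofReal_re, Complex.ofReal_im]
  ring

namespace Loc

variable (L : Loc)

/-- the common part of the three curvatures, divided by `√3` -/
def Cy : ℝ := (cr L.sig L.ze + cr L.P L.D) / √3

lemma T_eq : L.T = √3 * L.Th := by rw [Th]; field_simp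

lemma Zim : L.Z.im = √3 * L.Zy := by rw [Zy]; field_simp

lemma Wim : L.W.im = √3 * L.Wy := by rw [Wy]; field_simp

lemma C_eq : cr L.sig L.ze + cr L.P L.D = √3 * L.Cy := by rw [Cy]; field_simp

lemma Zsq : ‖L.Z‖ ^ 2 = L.Zx ^ 2 + 3 * L.Zy ^ 2 := by
  rw [nsq, Zim, Zx]; linear_combination L.Zy ^ 2 * s3

lemma Wsq : ‖L.W‖ ^ 2 = L.Wx ^ 2 + 3 * L.Wy ^ 2 := by
  rw [nsq, Wim, Wx]; linear_combination L.Wy ^ 2 * s3

lemma s_eq : L.s = L.T ^ 2 - ‖L.Z‖ ^ 2 := by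
  rw [Zsq, T_eq, s]; linear_combination (-L.Th ^ 2) * s3

variable (h0 : L.h ≠ 0) (hm : ‖L.um‖ = 1) (hz : ‖L.u0‖ = 1) (hp : ‖L.up‖ = 1)

include h0 hm hp in
lemma outer : (conj L.aM * L.sig - L.bM * conj L.P).re = 0 ∧
    L.q + L.h ^ 2 * (‖L.sig‖ ^ 2 - ‖L.P‖ ^ 2) = 1 := by
  have k1 := unimod L.bp hp
  have k2 := unimod L.bm hm
  rw [L.ap_eq h0] at k1
  rw [L.am_eq h0] at k2
  have e1 := det_add L.aM L.bM L.sig L.P L.h
  have e2 := det_add L.aM L.bM L.sig L.P (-L.h)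
  rw [← L.bp_eq h0, k1] at e1
  rw [Complex.ofReal_neg, neg_mul, neg_mul, ← sub_eq_add_neg, ← sub_eq_add_neg, ← L.bm_eq h0,
    k2] at e2
  refine ⟨mul_left_cancel₀ h0 ?_, ?_⟩
  · linear_combination (-1 / 4) * e1 + (1 / 4) * e2
  · rw [q]; linear_combination (-1 / 2) * e1 - (1 / 2) * e2

include h0 hz in
lemma inner : L.q - L.h ^ 2 * (conj L.aM * L.ze - L.bM * conj L.D).re +
    L.h ^ 4 * (‖L.ze‖ ^ 2 - ‖L.D‖ ^ 2) / 4 = 1 := by
  have k := unimod L.b0 hz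
  rw [L.a0_eq h0] at k
  have e := det_add L.aM L.bM L.ze L.D (-(L.h ^ 2 / 2))
  rw [show L.aM + ((-(L.h ^ 2 / 2) : ℝ) : ℂ) * L.ze = L.aM - L.h ^ 2 * L.ze / 2 by push_cast; ring,
    show L.bM + ((-(L.h ^ 2 / 2) : ℝ) : ℂ) * L.D = L.b0 by rw [L.b0_eq]; push_cast; ring, k] at e
  rw [q]; linear_combination -e

include h0 hm hp in
lemma s_q : L.s = L.q * (‖L.sig‖ ^ 2 - ‖L.P‖ ^ 2) := by
  have k := det_mul L.aM L.bM L.sig L.P
  rw [(L.outer h0 hm hp).1] at k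
  rw [s_eq, T, Z, q]; linear_combination k

include h0 hm hz hp in
/-- the exact identity -/
theorem exact (hq : L.q ≠ 0) : 3 * L.Cy * L.Th - L.Zx * L.Wx - 3 * L.Zy * L.Wy =
    L.C0 - L.s * (L.h ^ 2 * ‖L.ze‖ ^ 2) / (4 * L.q) := by
  have k := key_id L.aM L.bM L.sig L.P L.ze L.D (L.outer h0 hm hp).1
  have k1 := (L.outer h0 hm hp).2
  have k2 := L.inner h0 hz
  have k3 := L.s_q h0 hm hp
  have e : (conj L.Z * L.W).re = L.Zx * L.Wx + 3 * L.Zy * L.Wy := by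
    rw [Complex.mul_re, Complex.conj_re, Complex.conj_im, Zim, Wim, Zx, Wx]
    linear_combination L.Zy * L.Wy * s3
  change L.q * ((cr L.sig L.ze + cr L.P L.D) * L.T - (conj L.Z * L.W).re) =
    -(L.T ^ 2 - ‖L.Z‖ ^ 2) * _ at k
  rw [← s_eq, e, C_eq, T_eq] at k
  have k4 : (conj L.aM * L.ze - L.bM * conj L.D).re =
      L.h ^ 2 * (‖L.ze‖ ^ 2 - ‖L.D‖ ^ 2) / 4 - (‖L.sig‖ ^ 2 - ‖L.P‖ ^ 2) := by
    refine mul_left_cancel₀ (pow_ne_zero 2 h0) ?_
    linear_combination k1 - k2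
  have k5 : ‖L.sig‖ ^ 2 - ‖L.P‖ ^ 2 = L.s / L.q := by rw [k3]; field_simp
  rw [k4, k5] at k
  refine mul_left_cancel₀ hq ?_
  rw [C0]
  have e3 : √3 * L.Cy * (√3 * L.Th) = 3 * L.Cy * L.Th := by
    linear_combination L.Cy * L.Th * s3
  rw [e3] at k
  rw [show 3 * L.Cy * L.Th - L.Zx * L.Wx - 3 * L.Zy * L.Wy =
    3 * L.Cy * L.Th - (L.Zx * L.Wx + 3 * L.Zy * L.Wy) by ring, k]
  field_simp
  ring

include h0 in
lemma relA_eq : rho L.bm * rho L.bp * (conj L.um * L.up) - L.bm * conj L.bp =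
    conj (L.aM - L.h * L.sig) * (L.aM + L.h * L.sig) -
      (L.bM - L.h * L.P) * conj (L.bM + L.h * L.P) := by
  rw [← L.ap_eq h0, ← L.am_eq h0, ← L.bp_eq h0, ← L.bm_eq h0, map_mul, Complex.conj_ofReal]; ring

include h0 in
lemma relA_im : (rho L.bm * rho L.bp * (conj L.um * L.up) - L.bm * conj L.bp).im =
    2 * L.h * (√3 * L.Th) := by
  rw [L.relA_eq h0, ← T_eq, T]
  simp only [Complex.add_re, Complex.add_im, Complex.sub_re, Complex.sub_im, Complex.mul_re,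
    Complex.mul_im, Complex.conj_re, Complex.conj_im, Complex.ofReal_re, Complex.ofReal_im]
  ring

include h0 hm hp in
lemma relA_re : (rho L.bm * rho L.bp * (conj L.um * L.up) - L.bm * conj L.bp).re =
    2 * L.q - 1 := by
  have k := (L.outer h0 hm hp).2
  rw [L.relA_eq h0]
  rw [q] at k ⊢
  simp only [nsq, Complex.add_re, Complex.add_im, Complex.sub_re, Complex.sub_im, Complex.mul_re,
    Complex.mul_im, Complex.conj_re, Complex.conj_im, Complex.ofReal_re, Complex.ofReal_im] at k ⊢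
  linear_combination -k

include h0 in
lemma relB_eq : rho L.bm * (conj L.um * L.bp) - rho L.bp * (L.bm * conj L.up) =
    ((2 * L.h : ℝ) : ℂ) * L.Z := by
  have e : (rho L.bm : ℂ) * (conj L.um * L.bp) - rho L.bp * (L.bm * conj L.up) =
      conj (rho L.bm * L.um) * L.bp - L.bm * conj (rho L.bp * L.up) := by
    simp only [map_mul, Complex.conj_ofReal]; ring
  rw [e, L.ap_eq h0, L.am_eq h0, Z]
  conv_lhs => rw [L.bp_eq h0, L.bm_eq h0]
  simp only [map_add, map_sub, map_mul, Complex.conj_ofReal]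
  push_cast; ring

include h0 in
/-- the curvature of the polygon through the vertices `x a + y b` -/
lemma kappa (x y : ℂ) : cr (x * (rho L.b0 * L.u0) + y * L.b0 - (x * (rho L.bm * L.um) + y * L.bm))
    (x * (rho L.bp * L.up) + y * L.bp - (x * (rho L.b0 * L.u0) + y * L.b0)) =
    L.h ^ 3 * cr (x * L.sig + y * L.P) (x * L.ze + y * L.D) := by
  rw [L.ap_eq h0, L.am_eq h0, L.a0_eq h0]
  conv_lhs => rw [L.bp_eq h0, L.bm_eq h0, L.b0_eq]
  have e : ∀ z : ℂ, (L.h : ℂ) ^ 2 * z / 2 = ((L.h ^ 2 / 2 : ℝ) : ℂ) * z := fun z => by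
    push_cast; ring
  rw [e, e]
  simp only [cr, Complex.add_re, Complex.add_im, Complex.sub_re, Complex.sub_im, Complex.mul_re,
    Complex.mul_im, Complex.ofReal_re, Complex.ofReal_im]
  ring

lemma kap (x : ℂ) (hx : ‖x‖ ^ 2 = 1) :
    cr (x * L.sig + conj x * L.P) (x * L.ze + conj x * L.D) =
      √3 * L.Cy + (conj x * conj x * L.W).im := by
  rw [← C_eq, W]
  rw [nsq] at hx
  simp only [cr, Complex.add_re, Complex.add_im, Complex.sub_re, Complex.sub_im, Complex.mul_re,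
    Complex.mul_im, Complex.conj_re, Complex.conj_im]
  linear_combination (L.sig.re * L.ze.im - L.sig.im * L.ze.re + (L.P.re * L.D.im - L.P.im * L.D.re)) *
    hx

end Loc

lemma rot1_re (z : ℂ) : (conj om * conj om * z).re = -z.re / 2 + √3 / 2 * z.im := by
  simp only [Complex.mul_re, Complex.mul_im, Complex.conj_re, Complex.conj_im, om_re, om_im]
  linear_combination (-z.re / 4) * s3

lemma rot1_im (z : ℂ) : (conj om * conj om * z).im = -z.im / 2 - √3 / 2 * z.re := by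
  simp only [Complex.mul_re, Complex.mul_im, Complex.conj_re, Complex.conj_im, om_re, om_im]
  linear_combination (-z.im / 4) * s3

lemma rot2_re (z : ℂ) :
    (conj om * conj om * (conj om * conj om * z)).re = -z.re / 2 - √3 / 2 * z.im := by
  rw [rot1_re, rot1_re, rot1_im]; linear_combination (-z.re / 4) * s3

lemma rot2_im (z : ℂ) :
    (conj om * conj om * (conj om * conj om * z)).im = -z.im / 2 + √3 / 2 * z.re := by
  rw [rot1_im, rot1_re, rot1_im]; linear_combination (-z.im / 4) * s3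

section

variable {A η : ℝ} {b : ℂ → ℂ} (hG : Geo A η b) {h : ℝ} {um u0 up : ℂ} (h0 : 0 < h)
  (hm : ‖um‖ = 1) (hz : ‖u0‖ = 1) (hp : ‖up‖ = 1)
include hG h0 hm hz hp

/-- the three curvatures are nonnegative -/
theorem Geo.curv (c1 : ∀ j : ℕ, 0 < cr (pnt b (om ^ j * um)) (pnt b (om ^ j * u0)))
    (c2 : ∀ j : ℕ, 0 < cr (pnt b (om ^ j * u0)) (pnt b (om ^ j * up)))
    (c3 : ∀ j : ℕ, 0 < cr (pnt b (om ^ j * um)) (pnt b (om ^ j * up))) :
    0 ≤ (Loc.of b h um u0 up).Cy + (Loc.of b h um u0 up).Wy ∧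
    0 ≤ (Loc.of b h um u0 up).Cy - (Loc.of b h um u0 up).Wy / 2 - (Loc.of b h um u0 up).Wx / 2 ∧
    0 ≤ (Loc.of b h um u0 up).Cy - (Loc.of b h um u0 up).Wy / 2 + (Loc.of b h um u0 up).Wx / 2 := by
  have n : ∀ (j : ℕ) {u : ℂ}, ‖u‖ = 1 → ‖om ^ j * u‖ = 1 := fun j u hu => by
    rw [norm_mul, norm_pow, norm_om, hu, one_pow, one_mul]
  have k := fun j => hG.conv _ _ _ (n j hm) (n j hz) (n j hp) (c1 j) (c2 j) (c3 j)
  set L := Loc.of b h um u0 up with hL
  have fin : ∀ x : ℂ, ‖x‖ = 1 → 0 ≤ cr (x * (rho (b u0) * u0) + conj x * b u0 -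
      (x * (rho (b um) * um) + conj x * b um)) (x * (rho (b up) * up) + conj x * b up -
      (x * (rho (b u0) * u0) + conj x * b u0)) → 0 ≤ √3 * L.Cy + (conj x * conj x * L.W).im := by
    intro x hx hk
    have e := L.kappa h0.ne' x (conj x)
    rw [L.kap x (by rw [hx]; norm_num)] at e
    exact nonneg_of_mul_nonneg_right (hk.trans_eq e) (pow_pos h0 3) |> fun t => t
  have k0 := fin 1 norm_one (by simpa [pnt] using k 0)
  have k1 := fin om norm_om (by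
    have := k 1
    rwa [pow_one, hG.pnt_rot hm, hG.pnt_rot hz, hG.pnt_rot hp] at this)
  have k2 := fin (om * om) (norm_om_mul norm_om) (by
    have := k 2
    rw [pow_two, mul_assoc, mul_assoc, mul_assoc, hG.pnt_rot2 hm, hG.pnt_rot2 hz,
      hG.pnt_rot2 hp] at this
    simpa only [map_mul, mul_assoc] using this)
  rw [map_one, one_mul, one_mul, L.Wim] at k0
  rw [rot1_im, L.Wim] at k1
  rw [map_mul, mul_assoc, rot2_im, L.Wim] at k2
  refine ⟨nonneg_of_mul_nonneg_right ?_ s3_pos, nonneg_of_mul_nonneg_right ?_ s3_pos,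
    nonneg_of_mul_nonneg_right ?_ s3_pos⟩
  · linarith
  · rw [Loc.Wx]; linarith
  · rw [Loc.Wx]; linarith

end

end Pool.Agent.Lib.MP_fb520c_co.Dent
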