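import Pool.Agent.Lib.MP_fb520c_co.Dent.LocAlg

/-! A priori bounds for the curve of critical hexagons. -/

set_option autoImplicit false

open Complex ComplexConjugate

noncomputable section

namespace Pool.Agent.Lib.MP_fb520c_co.Dent

lemma s3_hi : √3 ≤ (1.7320509 : ℝ) := Real.sqrt_le_iff.2 ⟨by norm_num, by norm_num⟩

lemma s3_lo' : (1.7320508 : ℝ) ≤ √3 := Real.le_sqrt_of_sq_le (by norm_num)

lemma rel_det (b : ℂ → ℂ) {u v : ℂ} (hu : ‖u‖ = 1) (hv : ‖v‖ = 1) :
    (relA b u v).re ^ 2 + (relA b u v).im ^ 2 - ‖relB b u v‖ ^ 2 = 1 := by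
  have k := det_mul (rho (b u) * u) (b u) (rho (b v) * v) (b v)
  have e : ∀ w : ℂ, ‖w‖ = 1 → ‖(rho (b w) : ℂ) * w‖ ^ 2 - ‖b w‖ ^ 2 = 1 := fun w hw => by
    rw [norm_mul, hw, mul_one, Complex.norm_real, Real.norm_eq_abs, sq_abs, rho_sq]; ring
  rw [e u hu, e v hv, mul_one] at k
  have e1 : relA b u v = conj (rho (b u) * u) * (rho (b v) * v) - b u * conj (b v) := by
    simp only [relA, map_mul, Complex.conj_ofReal]; ring
  have e2 : relB b u v = conj (rho (b u) * u) * b v - b u * conj (rho (b v) * v) := by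
    simp only [relB, map_mul, Complex.conj_ofReal]; ring
  rw [e1, e2, k]

lemma relA_swap (b : ℂ → ℂ) (u v : ℂ) : relA b v u = conj (relA b u v) := by
  simp only [relA, map_mul, map_sub, Complex.conj_conj, Complex.conj_ofReal]; ring

lemma relB_swap (b : ℂ → ℂ) (u v : ℂ) : relB b v u = -relB b u v := by
  simp only [relB]; ring

lemma cr_pnt (b : ℂ → ℂ) (u v : ℂ) :
    cr (pnt b u) (pnt b v) = (relA b u v).im + (relB b u v).im := by
  simp only [cr, pnt, relA, relB, Complex.add_re, Complex.add_im, Complex.sub_im, Complex.mul_re,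
    Complex.mul_im, Complex.conj_re, Complex.conj_im, Complex.ofReal_re, Complex.ofReal_im]
  ring

lemma relA_im (b : ℂ → ℂ) (u v : ℂ) :
    (relA b u v).im = rho (b u) * rho (b v) * cr u v + cr (b u) (b v) := by
  simp only [cr, relA, Complex.sub_im, Complex.mul_re, Complex.mul_im, Complex.conj_re,
    Complex.conj_im, Complex.ofReal_re, Complex.ofReal_im]
  ring

lemma rot_re (z : ℂ) : (conj om * conj om * z).re = -z.re / 2 + √3 / 2 * z.im := by
  simp only [Complex.mul_re, Complex.mul_im, Complex.conj_re, Complex.conj_im, om_re, om_im]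
  linear_combination (-z.re / 4) * s3

lemma rot_im (z : ℂ) : (conj om * conj om * z).im = -z.im / 2 - √3 / 2 * z.re := by
  simp only [Complex.mul_re, Complex.mul_im, Complex.conj_re, Complex.conj_im, om_re, om_im]
  linear_combination (-z.im / 4) * s3

lemma norm_rot2 (z : ℂ) : ‖conj om * conj om * z‖ = ‖z‖ := by
  rw [norm_mul, norm_mul, Complex.norm_conj, norm_om, one_mul, one_mul]

lemma three_bound {x y M : ℝ} (h0 : |x| ≤ M) (h1 : |-x / 2 + 3 / 2 * y| ≤ M)
    (h2 : |-x / 2 - 3 / 2 * y| ≤ M) : x ^ 2 + 3 * y ^ 2 ≤ 4 / 3 * M ^ 2 := by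
  have a := abs_le.1 h0
  have b := abs_le.1 h1
  have c := abs_le.1 h2
  rcases le_total 0 x with hx | hx <;> rcases le_total 0 y with hy | hy <;>
  nlinarith [mul_nonneg (sub_nonneg.2 a.1) (sub_nonneg.2 a.2),
    mul_nonneg (sub_nonneg.2 b.1) (sub_nonneg.2 b.2),
    mul_nonneg (sub_nonneg.2 c.1) (sub_nonneg.2 c.2),
    mul_nonneg (sub_nonneg.2 a.1) (sub_nonneg.2 b.1), mul_nonneg (sub_nonneg.2 a.1) (sub_nonneg.2 c.1),
    mul_nonneg (sub_nonneg.2 b.1) (sub_nonneg.2 c.1), mul_nonneg (sub_nonneg.2 a.2) (sub_nonneg.2 b.2),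
    mul_nonneg (sub_nonneg.2 a.2) (sub_nonneg.2 c.2), mul_nonneg (sub_nonneg.2 b.2) (sub_nonneg.2 c.2)]

lemma slope_pos {X Z k : ℝ} (hX : 0 ≤ X) (hZ : 0 ≤ Z) (h0 : X ≤ k + 39 / 80 * Z)
    (h1 : X + 3 * Z ≤ 2 * k + 39 / 80 * |X - Z|) : X ^ 2 + 3 * Z ^ 2 ≤ 12 * (80 / 201 * k) ^ 2 := by
  rcases le_total X Z with h | h
  · rw [abs_of_nonpos (by linarith)] at h1
    have : Z + 119 / 201 * X ≤ 2 * (80 / 201 * k) := by linarith
    have h2 := pow_le_pow_left₀ (by positivity) this 2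
    nlinarith [mul_nonneg hX hZ]
  · rw [abs_of_nonneg (by linarith)] at h1
    rcases le_total Z (80 / 201 * k) with g | g
    · have h2 := pow_le_pow_left₀ hZ g 2
      have h3 := pow_le_pow_left₀ hX (show X ≤ 3 * (80 / 201 * k) by linarith) 2
      nlinarith
    · have h3 := pow_le_pow_left₀ hX
        (show X ≤ 3 * (80 / 201 * k) - 279 / 41 * (Z - 80 / 201 * k) by linarith) 2
      nlinarith [mul_nonneg (sub_nonneg.2 g) (show 0 ≤ k / 2 - Z by linarith),
        mul_nonneg (sub_nonneg.2 g) hZ]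

lemma slope_bound {x y k : ℝ} (h0 : |x| ≤ k + 39 / 80 * |y|)
    (h1 : |-x + 3 * y| ≤ 2 * k + 39 / 80 * |x + y|) (h2 : |x + 3 * y| ≤ 2 * k + 39 / 80 * |x - y|) :
    x ^ 2 + 3 * y ^ 2 ≤ 12 * (80 / 201 * k) ^ 2 := by
  rw [← sq_abs x, ← sq_abs y]
  refine slope_pos (abs_nonneg _) (abs_nonneg _) h0 ?_
  rcases le_total 0 x with hx | hx <;> rcases le_total 0 y with hy | hy
  · rw [abs_of_nonneg hx, abs_of_nonneg hy]
    exact (le_abs_self _).trans h2
  · rw [abs_of_nonneg hx, abs_of_nonpos hy, sub_neg_eq_add]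
    linarith [neg_le_abs (-x + 3 * y)]
  · rw [abs_of_nonpos hx, abs_of_nonneg hy, show -x - y = -(x + y) by ring, abs_neg]
    exact (le_abs_self _).trans h1
  · rw [abs_of_nonpos hx, abs_of_nonpos hy, show -x - -y = -(x - y) by ring, abs_neg]
    linarith [neg_le_abs (x + 3 * y)]

lemma ap2_num {be rb c sn r r' I R m db : ℝ} (be0 : 0 ≤ be) (hbe : be ≤ 7 / 40) (s0 : 0 < sn)
    (hrb : 1 + be ^ 2 / 2 ≤ rb) (hc : 0.3881 + 0.8 * sn ≤ c) (r1 : 1 ≤ r) (r2 : 1 ≤ r')
    (r3 : r ≤ 1 + be ^ 2 / 2) (r4 : r' ≤ 1 + be ^ 2 / 2) (m0 : 0 ≤ m) (imA : |I| ≤ 0.075)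
    (m1 : m ≤ 1.3788 * (I ^ 2 / 1.9) + 0.38808 * |I|) (e3 : |r' * sn - r * I| ≤ be * m)
    (re1 : 1 - R ≤ I ^ 2 / 1.9) (dt : R ^ 2 + I ^ 2 - m ^ 2 = 1)
    (e4 : db ≤ r * m + be * (|R - 1| + |I|)) :
    0 < I ∧ I * (1 - be * c) ≤ rb * sn ∧ sn ≤ I * (rb + be * c) ∧ m ≤ c * I ∧
      db ≤ I * (rb * c + be * (1 + I)) ∧ m < I := by
  have q1 : be ^ 2 ≤ 49 / 1600 := by nlinarith
  have a0 := abs_nonneg I
  have m2 : m ≤ 0.4426 * |I| := by
    have := mul_le_mul_of_nonneg_left imA a0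
    rw [← sq_abs I, sq] at m1
    norm_num at m1 this ⊢
    linarith
  have m3 : be * m ≤ 0.0775 * |I| := by
    have := mul_le_mul hbe m2 m0 (by norm_num)
    norm_num at this ⊢
    linarith
  have e5 := abs_le.1 e3
  have rs := mul_le_mul_of_nonneg_right r2 s0.le
  have I0 : 0 < I := by
    by_contra hn
    rw [abs_of_nonpos (not_lt.1 hn)] at m3
    have := mul_nonneg (sub_nonneg.2 r1) (neg_nonneg.2 (not_lt.1 hn))
    norm_num at m3
    linarith [e5.2, not_lt.1 hn]
  rw [abs_of_pos I0] at m1 m2 m3 e4 imA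
  have rI := mul_le_mul_of_nonneg_right r1 I0.le
  have rs' := mul_le_mul_of_nonneg_right r4 s0.le
  have I1 : I ≤ 1.1007 * sn := by
    have := mul_le_mul_of_nonneg_right q1 s0.le
    norm_num at m3 ⊢
    linarith [e5.1]
  have m4 : m ≤ c * I := by
    have k1 := mul_le_mul_of_nonneg_right I1 I0.le
    have k2 := mul_le_mul_of_nonneg_right hc I0.le
    have k3 := mul_pos s0 I0
    norm_num at k1 k2 m1
    linarith
  have m5 := mul_le_mul_of_nonneg_left m4 be0
  have R1 : R ≤ 1 := by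
    have k := pow_le_pow_left₀ m0 (m2.trans (mul_le_of_le_one_left I0.le (by norm_num))) 2
    exact (abs_le_of_sq_le_sq' (by linarith) zero_le_one).2
  have R2 : 1 - R ≤ I ^ 2 := re1.trans (div_le_self (sq_nonneg _) (by norm_num))
  rw [abs_of_nonpos (by linarith)] at e4
  have t1 := mul_le_mul_of_nonneg_right (r4.trans hrb) s0.le
  have t2 := mul_le_mul_of_nonneg_right (r3.trans hrb) I0.le
  have t3 := mul_le_mul (r3.trans hrb) m4 m0 (by linarith)
  have t4 := mul_le_mul_of_nonneg_left R2 be0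
  refine ⟨I0, by linarith [e5.1], by linarith [e5.2], m4, by linarith, ?_⟩
  norm_num at m2
  linarith

section
variable {A η : ℝ} {b : ℂ → ℂ} (hG : Geo A η b) {u v : ℂ} (hu : ‖u‖ = 1) (hv : ‖v‖ = 1)
include hG hu

lemma Geo.norm_rot : ‖b (om * u)‖ = ‖b u‖ := by
  rw [hG.rot u hu, norm_mul, Complex.norm_conj, norm_om, one_mul]

lemma Geo.b_neg : b (-u) = -b u := by
  have e : om * (om * (om * u)) = -u := by
    have : om * (om * om) = -1 := by
      apply Complex.ext <;> simp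
      · linear_combination (-3 / 8) * s3
      · linear_combination (-√3 / 8) * s3
    linear_combination u * this
  have e' : conj om * (conj om * conj om) = -1 := by
    apply Complex.ext <;> simp
    · linear_combination (-3 / 8) * s3
    · linear_combination (√3 / 8) * s3
  rw [← e, hG.rot _ (norm_om_mul (norm_om_mul hu)), hG.rot _ (norm_om_mul hu), hG.rot _ hu]
  linear_combination b u * e'

include hv

lemma Geo.hx : √3 * (relA b u v + relB b u v).re + √3 / 2 ≤ η := by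
  have k := hG.hexle v _ _ hv (norm_om_mul hu) (norm_om_mul (norm_om_mul hu))
  have o1 : om * om = om - 1 := by
    apply Complex.ext <;> simp
    · linear_combination (-1 / 4) * s3
    · ring
  have o2 : conj om * conj om = conj om - 1 := by rw [← map_mul, o1, map_sub, map_one]
  rw [hG.pnt_rot2 hu, hG.pnt_rot hu, ← mul_assoc om om, ← mul_assoc (conj om) (conj om), o1, o2] at k
  refine le_of_eq_of_le ?_ k
  have e1 := rho_sq (b u)
  have e2 := nsq u
  rw [hu] at e2
  rw [nsq] at e1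
  simp only [hex, cr, pnt, relA, relB, Complex.add_re, Complex.add_im, Complex.sub_re,
    Complex.sub_im, Complex.mul_re, Complex.mul_im, Complex.conj_re, Complex.conj_im,
    Complex.ofReal_re, Complex.ofReal_im, Complex.one_re, Complex.one_im, om_re, om_im]
  linear_combination (-√3 / 2) * e1 + (√3 / 2 * rho (b u) ^ 2) * e2

lemma Geo.abs_re (hη : η ≤ 2.62652) : |(relB b u v).re| ≤ 1.016423 - (relA b u v).re := by
  have k1 := hG.hx hu hv
  have k2 := hG.hx hv hu
  rw [relA_swap, relB_swap] at k2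
  simp only [Complex.add_re, Complex.neg_re, Complex.conj_re] at k1 k2
  have f : ∀ x : ℝ, √3 * x + √3 / 2 ≤ η → x ≤ 1.016423 := fun x hx => by
    by_contra hn
    nlinarith [s3_lo']
  exact abs_le.2 ⟨by linarith [f _ k2], by linarith [f _ k1]⟩

theorem Geo.ap1_rel (hη : η ≤ 2.62652) :
    ‖relB b u v‖ ≤ 1.1548 * (1.016423 - (relA b u v).re) := by
  have k0 := hG.abs_re hu hv hη
  have k1 := hG.abs_re (norm_om_mul hu) (norm_om_mul hv) hη
  have k2 := hG.abs_re (norm_om_mul (norm_om_mul hu)) (norm_om_mul (norm_om_mul hv)) hη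
  rw [hG.relA_rot (norm_om_mul hu) (norm_om_mul hv), hG.relB_rot (norm_om_mul hu) (norm_om_mul hv)]
    at k2
  rw [hG.relA_rot hu hv, hG.relB_rot hu hv] at k1 k2
  rw [rot_re, rot_re, rot_im] at k2
  rw [rot_re] at k1
  have M0 := (abs_nonneg _).trans k0
  generalize 1.016423 - (relA b u v).re = M at *
  obtain ⟨y, hy⟩ : ∃ y, (relB b u v).im = √3 * y := ⟨_, (mul_div_cancel₀ _ s3_pos.ne').symm⟩
  have := three_bound (y := y) k0 (by convert k1 using 2; rw [hy]; linear_combination (-y / 2) * s3)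
    (by convert k2 using 2; rw [hy]; linear_combination (y / 2 + (relB b u v).re / 4) * s3)
  refine (abs_le_of_sq_le_sq' ?_ (by positivity)).2
  rw [nsq, hy, mul_pow, sq (√3), s3]
  nlinarith [sq_nonneg M]

/-- the bound that follows from the slope condition -/
lemma Geo.relB_le {d : ℝ} (hd : 1 - (relA b u v).re ≤ d) (d0 : 0 ≤ d) :
    ‖relB b u v‖ ≤ 1.3788 * d + 0.38808 * |(relA b u v).im| := by
  have k0 := hG.slope2 hu hv
  have k1 := hG.slope2 (norm_om_mul hu) (norm_om_mul hv)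
  have k2 := hG.slope2 (norm_om_mul (norm_om_mul hu)) (norm_om_mul (norm_om_mul hv))
  rw [hG.relA_rot (norm_om_mul hu) (norm_om_mul hv), hG.relB_rot (norm_om_mul hu) (norm_om_mul hv)]
    at k2
  rw [hG.relA_rot hu hv, hG.relB_rot hu hv] at k1 k2
  simp only [rot_re, rot_im] at k1 k2
  obtain ⟨y, hy⟩ : ∃ y, (relB b u v).im = √3 * y := ⟨_, (mul_div_cancel₀ _ s3_pos.ne').symm⟩
  obtain ⟨J, hJ⟩ : ∃ J, (relA b u v).im = √3 * J := ⟨_, (mul_div_cancel₀ _ s3_pos.ne').symm⟩
  rw [hy, hJ] at k0 k1 k2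
  have f : ∀ {p q p' q' : ℝ}, √3 * |p| ≤ √3 * (1 - (relA b u v).re) + 39 / 80 * |√3 * J + q| →
      |p'| = 2 * |p| → √3 * |q'| = 2 * |q| → |p'| ≤ 2 * (d + 39 / 80 * |J|) + 39 / 80 * |q'| := by
    intro p q p' q' h e1 e2
    have h1 := abs_add_le (√3 * J) q
    rw [abs_mul, abs_of_pos s3_pos] at h1
    refine le_of_mul_le_mul_left ?_ s3_pos
    rw [e1]
    nlinarith [mul_le_mul_of_nonneg_left hd s3_pos.le]
  have two : ∀ {p p' : ℝ}, p' = 2 * p ∨ p' = -(2 * p) → |p'| = 2 * |p| := by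
    rintro p p' (rfl | rfl) <;> simp [abs_mul]
  have two' : ∀ {q q' : ℝ}, √3 * q' = 2 * q ∨ √3 * q' = -(2 * q) → √3 * |q'| = 2 * |q| := by
    intro q q' h
    rw [← two h, abs_mul, abs_of_pos s3_pos]
  have g0 := f (p' := 2 * (relB b u v).re) (q' := 2 * y) k0 (two (.inl rfl)) (two' (.inl (by ring)))
  simp only [abs_mul, abs_two] at g0
  have := slope_bound (x := (relB b u v).re) (y := y) (k := d + 39 / 80 * |J|) (by linarith)
    (f k1 (two (.inl (by linear_combination (-y) * s3))) (two' (.inr (by ring))))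
    (f k2 (two (.inr (by linear_combination (-y - (relB b u v).re / 2) * s3)))
      (two' (.inl (by linear_combination (√3 * y / 2) * s3))))
  refine (abs_le_of_sq_le_sq' ?_ (by positivity)).2
  rw [nsq, hy, mul_pow, sq (√3), s3, hJ, abs_mul, abs_of_pos s3_pos]
  refine this.trans ?_
  have J0 := abs_nonneg J
  have e : 1.3788 * (d + 39 / 80 * |J|) ≤ 1.3788 * d + 0.38808 * (√3 * |J|) + 0 := by
    nlinarith [mul_le_mul_of_nonneg_right s3_lo' J0]
  have := pow_le_pow_left₀ (by positivity) e 2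
  nlinarith [sq_nonneg (d + 39 / 80 * |J|)]

end

section
variable {A η : ℝ} {b : ℂ → ℂ} (hG : Geo A η b) {u v : ℂ} (hu : ‖u‖ = 1) (hv : ‖v‖ = 1)
include hG hu

omit hu in
lemma Geo.rel_one : relA b 1 u = rho (b u) * u ∧ relB b 1 u = b u := by
  simp [relA, relB, hG.base, rho]

/-- the first a priori bound -/
theorem Geo.ap1 (hη : η ≤ 2.62652) (h : 0 ≤ u.re) : ‖b u‖ ≤ 1.1548 * (1.016423 - u.re) := by
  have k := hG.ap1_rel norm_one hu hη
  rw [(hG.rel_one (u := u)).1, (hG.rel_one (u := u)).2, Complex.re_ofReal_mul] at k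
  nlinarith [mul_le_mul_of_nonneg_right (one_le_rho (b u)) h]

omit hG in
lemma conj_rot : ‖conj om * u‖ = 1 ∧ om * (conj om * u) = u :=
  ⟨by rw [norm_mul, Complex.norm_conj, norm_om, hu, one_mul], by rw [← mul_assoc, om_conj, one_mul]⟩

theorem Geo.ap1_om (hη : η ≤ 2.62652) (h : 0 ≤ (conj om * u).re) :
    ‖b u‖ ≤ 1.1548 * (1.016423 - (conj om * u).re) := by
  have := hG.ap1 (conj_rot hu).1 hη h
  rwa [← hG.norm_rot (conj_rot hu).1, (conj_rot hu).2] at this

theorem Geo.ap1_all (hη : η ≤ 2.62652) : ‖b u‖ ≤ 0.17371 := by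
  have f : ∀ w : ℂ, ‖w‖ = 1 → 0.866 ≤ |w.re| → ‖b w‖ ≤ 0.17371 := fun w hw h => by
    rcases le_abs.1 h with h | h
    · linarith [hG.ap1 hw hη (by linarith)]
    · have := hG.ap1 (u := -w) (by rwa [norm_neg]) hη (by rw [Complex.neg_re]; linarith)
      rw [hG.b_neg hw, norm_neg, Complex.neg_re] at this
      linarith
  by_contra hn
  have g : ∀ w : ℂ, ‖w‖ = 1 → ‖b w‖ = ‖b u‖ → |w.re| ≤ 0.866 := fun w hw e =>
    le_of_not_ge fun h => hn (e ▸ f w hw h)
  have k0 := g u hu rfl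
  have k1 := g _ (norm_om_mul hu) (hG.norm_rot hu)
  have k2 := g _ (norm_om_mul (norm_om_mul hu))
    ((hG.norm_rot (norm_om_mul hu)).trans (hG.norm_rot hu))
  obtain ⟨y, hy⟩ : ∃ y, u.im = √3 * y := ⟨_, (mul_div_cancel₀ _ s3_pos.ne').symm⟩
  simp only [Complex.mul_re, Complex.mul_im, om_re, om_im, hy] at k1 k2
  have := three_bound (y := y) k0 (by rw [← abs_neg]; convert k1 using 2; linear_combination (y / 2) * s3)
    (by convert k2 using 2; linear_combination (y / 2 + u.re / 4) * s3)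
  have e := nsq u
  rw [hu, hy, mul_pow, sq (√3), s3] at e
  norm_num at this
  linarith

theorem Geo.ap1_be (hη : η ≤ 2.62652) : ‖b u‖ ≤ 7 / 40 := (hG.ap1_all hu hη).trans (by norm_num)

include hv

lemma Geo.rel_pow (j : ℕ) : ‖om ^ j * u‖ = 1 ∧ ‖om ^ j * v‖ = 1 ∧
    relA b (om ^ j * u) (om ^ j * v) = relA b u v ∧
    ‖relB b (om ^ j * u) (om ^ j * v)‖ = ‖relB b u v‖ := by
  induction j with
  | zero => simp [hu, hv]
  | succ j ih =>
    obtain ⟨h1, h2, h3, h4⟩ := ih
    rw [pow_succ', mul_assoc, mul_assoc, hG.relA_rot h1 h2, hG.relB_rot h1 h2, norm_rot2]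
    exact ⟨norm_om_mul h1, norm_om_mul h2, h3, h4⟩

/-- the second a priori bound, with the sharp constant -/
theorem Geo.ap2' {be rb c : ℝ} (bu : ‖b u‖ ≤ be) (bv : ‖b v‖ ≤ be) (hbe : be ≤ 7 / 40)
    (s0 : 0 < cr u v) (s1 : cr u v ≤ 1 / 25) (hre : 0 ≤ (conj u * v).re) (hrb : 1 + be ^ 2 / 2 ≤ rb)
    (hc : 0.3881 + 0.8 * cr u v ≤ c) : Ap2 b be rb c u v := by
  have be0 : 0 ≤ be := (norm_nonneg _).trans bu
  have r1 := one_le_rho (b u)
  have r2 := one_le_rho (b v)
  have r3 := rho_le bu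
  have r4 := rho_le bv
  have q1 : be ^ 2 ≤ 49 / 1600 := by nlinarith
  have bb : ‖b u * conj (b v)‖ ≤ 49 / 1600 := by
    rw [norm_mul, Complex.norm_conj]
    nlinarith [mul_le_mul bu bv (norm_nonneg _) be0]
  have uv : (conj u * v).re ^ 2 + cr u v ^ 2 = 1 := by
    have e1 := nsq u
    have e2 := nsq v
    rw [hu] at e1
    rw [hv] at e2
    simp only [cr, Complex.mul_re, Complex.conj_re, Complex.conj_im]
    linear_combination (-(v.re ^ 2 + v.im ^ 2)) * e1 - e2
  have rr : 1 ≤ rho (b u) * rho (b v) := one_le_mul_of_one_le_of_one_le r1 r2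
  have rr' : rho (b u) * rho (b v) ≤ 1.031 := by
    nlinarith [mul_le_mul r3 r4 (by linarith) (by linarith)]
  have reA : 0.9 ≤ (relA b u v).re := by
    have e : (relA b u v).re = rho (b u) * rho (b v) * (conj u * v).re - (b u * conj (b v)).re := by
      rw [relA, Complex.sub_re, ← Complex.ofReal_mul, Complex.re_ofReal_mul]
    have k : 0.99 ≤ (conj u * v).re := by nlinarith
    have := (Complex.re_le_norm _).trans bb
    nlinarith [mul_le_mul_of_nonneg_right rr hre]
  have imA : |(relA b u v).im| ≤ 0.075 := by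
    have e : (relA b u v).im = rho (b u) * rho (b v) * cr u v - (b u * conj (b v)).im := by
      rw [relA, Complex.sub_im, ← Complex.ofReal_mul, Complex.im_ofReal_mul]
      simp [cr]; left; ring
    have := abs_le.1 ((Complex.abs_im_le_norm _).trans bb)
    rw [e, abs_le]
    constructor <;> nlinarith [mul_le_mul_of_nonneg_right rr' s0.le, mul_nonneg (zero_le_one.trans rr) s0.le]
  have dt := rel_det b hu hv
  have re1 : 1 - (relA b u v).re ≤ (relA b u v).im ^ 2 / 1.9 := by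
    rcases le_total (relA b u v).re 1 with h | h
    · rw [le_div_iff₀ (by norm_num)]
      nlinarith [sq_nonneg ‖relB b u v‖, mul_nonneg (sub_nonneg.2 h) (sub_nonneg.2 reA)]
    · have : 0 ≤ (relA b u v).im ^ 2 / 1.9 := by positivity
      linarith
  have m1 := hG.relB_le hu hv re1 (by positivity)
  have e1 : (rho (b u) : ℂ) * u * relA b u v + b u * conj (relB b u v) = rho (b v) * v := by
    have a1 : (rho (b u) : ℂ) ^ 2 = 1 + b u * conj (b u) := by
      rw [← Complex.ofReal_pow, rho_sq, Complex.mul_conj, Complex.normSq_eq_norm_sq]; push_cast; rfl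
    have a2 : u * conj u = 1 := by rw [Complex.mul_conj, Complex.normSq_eq_norm_sq, hu]; simp
    simp only [relA, relB, map_sub, map_mul, Complex.conj_conj, Complex.conj_ofReal]
    linear_combination (rho (b v) * v * (rho (b u) : ℂ) ^ 2) * a2 + (rho (b v) * v) * a1
  have e2 : (rho (b u) : ℂ) * u * relB b u v + b u * conj (relA b u v - 1) = b v - b u := by
    have a1 : (rho (b u) : ℂ) ^ 2 = 1 + b u * conj (b u) := by
      rw [← Complex.ofReal_pow, rho_sq, Complex.mul_conj, Complex.normSq_eq_norm_sq]; push_cast; rfl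
    have a2 : u * conj u = 1 := by rw [Complex.mul_conj, Complex.normSq_eq_norm_sq, hu]; simp
    simp only [relA, relB, map_sub, map_mul, map_one, Complex.conj_conj, Complex.conj_ofReal]
    linear_combination (b v * (rho (b u) : ℂ) ^ 2) * a2 + (b v) * a1
  have e3 : |rho (b v) * cr u v - rho (b u) * (relA b u v).im| ≤ be * ‖relB b u v‖ := by
    have a2 : conj u * u = 1 := by
      rw [mul_comm, Complex.mul_conj, Complex.normSq_eq_norm_sq, hu]; simp
    have a3 : conj u * (b u * conj (relB b u v)) =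
        rho (b v) * (conj u * v) - rho (b u) * relA b u v := by
      linear_combination conj u * e1 - (rho (b u) * relA b u v) * a2
    have a4 := Complex.abs_im_le_norm (conj u * (b u * conj (relB b u v)))
    rw [norm_mul, norm_mul, Complex.norm_conj, Complex.norm_conj, hu, one_mul, a3, Complex.sub_im,
      Complex.im_ofReal_mul, Complex.im_ofReal_mul] at a4
    have a5 : (conj u * v).im = cr u v := by simp [cr]; ring
    rw [a5] at a4
    exact a4.trans (mul_le_mul_of_nonneg_right bu (norm_nonneg _))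
  have e4 : ‖b v - b u‖ ≤ rho (b u) * ‖relB b u v‖ +
      be * (|(relA b u v).re - 1| + |(relA b u v).im|) := by
    rw [← e2]
    refine (norm_add_le _ _).trans (add_le_add (le_of_eq ?_) ?_)
    · rw [norm_mul, norm_mul, hu, mul_one, Complex.norm_real, Real.norm_eq_abs,
        abs_of_nonneg (by linarith)]
    · rw [norm_mul, Complex.norm_conj]
      refine mul_le_mul bu ?_ (norm_nonneg _) be0
      simpa using Complex.norm_le_abs_re_add_abs_im (relA b u v - 1)
  have crp : ‖relB b u v‖ < (relA b u v).im → ∀ j : ℕ,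
      0 < cr (pnt b (om ^ j * u)) (pnt b (om ^ j * v)) := fun h j => by
    obtain ⟨-, -, h3, h4⟩ := hG.rel_pow hu hv j
    rw [cr_pnt, h3]
    linarith [(abs_le.1 ((Complex.abs_im_le_norm _).trans_eq h4)).1]
  obtain ⟨k1, k2, k3, k4, k5, k6⟩ := ap2_num be0 hbe s0 hrb hc r1 r2 r3 r4 (norm_nonneg _) imA m1 e3
    re1 dt e4
  exact ⟨k1, k2, k3, re1, k4, k5, crp k6⟩

/-- the second a priori bound in the form of the notes -/
theorem Geo.ap2 {be rb c : ℝ} (bu : ‖b u‖ ≤ be) (bv : ‖b v‖ ≤ be) (hbe : be ≤ 7 / 40)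
    (s0 : 0 < cr u v) (s1 : cr u v ≤ 1 / 25) (hre : 0 ≤ (conj u * v).re) (hrb : 1 + be ^ 2 / 2 ≤ rb)
    (hc : 0.415 + 0.87 * cr u v ≤ c) : Ap2 b be rb c u v :=
  hG.ap2' hu hv bu bv hbe s0 s1 hre hrb (by linarith)

omit hv in
lemma Geo.im_pos (hη : η ≤ 2.62652) (h : 0 < u.im) : 0 < (pnt b u).im := by
  have near : ∀ w : ℂ, ‖w‖ = 1 → 0 ≤ w.re → |w.im| ≤ 7 / 40 → ‖b w‖ ≤ 0.7 * |w.im| := by
    intro w hw h1 h2
    have e := nsq w
    rw [hw, ← sq_abs w.im] at e
    have a0 := abs_nonneg w.im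
    have r1 := one_le_rho (b w)
    have r2 := rho_le (hG.ap1_be hw hη)
    have k := hG.relB_le norm_one hw (d := 7 / 40 * |w.im|) (by
      rw [(hG.rel_one (u := w)).1, Complex.re_ofReal_mul]
      have : w.re ≤ 1 := by nlinarith
      nlinarith [mul_le_mul_of_nonneg_right r1 h1, mul_le_mul_of_nonneg_right h2 a0,
        mul_nonneg h1 (sub_nonneg.2 this)]) (by positivity)
    rw [(hG.rel_one (u := w)).1, (hG.rel_one (u := w)).2, Complex.im_ofReal_mul, abs_mul,
      abs_of_nonneg (a := rho (b w)) (by linarith)] at k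
    have := mul_le_mul_of_nonneg_right r2 a0
    norm_num at k this ⊢
    linarith
  have lt : ‖b u‖ < u.im := by
    rcases le_or_gt u.im (7 / 40) with k | k
    · have : ‖b u‖ ≤ 0.7 * |u.im| := by
        rcases le_total 0 u.re with g | g
        · exact near u hu g (by rwa [abs_of_pos h])
        · have := near (-u) (by rwa [norm_neg]) (by rw [Complex.neg_re]; linarith)
            (by rwa [Complex.neg_im, abs_neg, abs_of_pos h])
          rwa [hG.b_neg hu, norm_neg, Complex.neg_im, abs_neg] at this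
      rw [abs_of_pos h] at this
      norm_num at this
      linarith
    · exact (hG.ap1_be hu hη).trans_lt k
  rw [pnt, Complex.add_im, Complex.im_ofReal_mul]
  linarith [(abs_le.1 (Complex.abs_im_le_norm (b u))).1,
    mul_le_mul_of_nonneg_right (one_le_rho (b u)) h.le]

lemma Geo.cr_sum : cr (pnt b u) (pnt b v) + cr (pnt b (om * u)) (pnt b (om * v)) +
    cr (pnt b (om * (om * u))) (pnt b (om * (om * v))) =
    3 * (rho (b u) * rho (b v) * cr u v + cr (b u) (b v)) := by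
  rw [cr_pnt, cr_pnt, cr_pnt, hG.relA_rot (norm_om_mul hu) (norm_om_mul hv),
    hG.relB_rot (norm_om_mul hu) (norm_om_mul hv), hG.relA_rot hu hv, hG.relB_rot hu hv, relA_im]
  simp only [rot_re, rot_im]
  linear_combination (-(relB b u v).im / 4) * s3

end

lemma rho_mul_ge {x y : ℂ} {be : ℝ} (hx : ‖x‖ ≤ be) (hy : ‖y‖ ≤ be) :
    1 + (‖x‖ ^ 2 + ‖y‖ ^ 2) / 2 - be ^ 2 * ‖x - y‖ ^ 2 / 2 ≤ rho x * rho y := by
  have r1 := one_le_rho x
  have r2 := one_le_rho y
  have e1 := rho_sq x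
  have e2 := rho_sq y
  have h1 : |rho x - rho y| * 2 ≤ be * ‖x - y‖ * 2 := by
    have a : |rho x - rho y| * (rho x + rho y) = |‖x‖ - ‖y‖| * (‖x‖ + ‖y‖) := by
      rw [← abs_of_nonneg (a := rho x + rho y) (by linarith),
        ← abs_of_nonneg (a := ‖x‖ + ‖y‖) (by positivity), ← abs_mul, ← abs_mul]
      congr 1
      linear_combination e1 - e2
    have := mul_le_mul (abs_norm_sub_norm_le x y) (add_le_add hx hy) (by positivity) (norm_nonneg _)
    nlinarith [mul_le_mul_of_nonneg_left (add_le_add r1 r2) (abs_nonneg (rho x - rho y))]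
  have := pow_le_pow_left₀ (abs_nonneg _) (le_of_mul_le_mul_right h1 two_pos) 2
  rw [sq_abs, mul_pow] at this
  nlinarith

/-- the area bound -/
theorem Geo.ap3 {A η : ℝ} {b : ℂ → ℂ} (hG : Geo A η b) (hη : η ≤ 2.62652) {N : ℕ} (hN : 0 < N)
    {u : ℕ → ℂ} (h1 : ∀ m ≤ N, ‖u m‖ = 1) (h0 : u 0 = 1) (hn : u N = om)
    (him : ∀ m, 0 < m → m < N → 0 < (u m).im) (hom : ∀ m < N, 0 < cr (u m) om)
    (s0 : ∀ m < N, 0 < cr (u m) (u (m + 1))) (s1 : ∀ m < N, cr (u m) (u (m + 1)) ≤ 1 / 25)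
    (hre : ∀ m < N, 0 ≤ (conj (u m) * u (m + 1)).re) :
    3 * ∑ m ∈ Finset.range N, (rho (b (u m)) * rho (b (u (m + 1))) * cr (u m) (u (m + 1)) +
      cr (b (u m)) (b (u (m + 1)))) ≤ A := by
  let w : ℕ → ℂ := fun k => om ^ (k / N) * u (k % N)
  have w0 : ∀ j, ∀ m < N, w (N * j + m) = om ^ j * u m := fun j m hm => by
    simp only [w]
    rw [Nat.mul_add_div hN, Nat.div_eq_of_lt hm, add_zero, Nat.mul_add_mod, Nat.mod_eq_of_lt hm]
  have w1 : ∀ j, ∀ m < N, w (N * j + m + 1) = om ^ j * u (m + 1) := fun j m hm => by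
    rcases (Nat.succ_le_of_lt hm).lt_or_eq with h | h
    · exact w0 j (m + 1) h
    · rw [add_assoc, show m + 1 = N from h, ← Nat.mul_succ, ← add_zero (N * _), w0 _ 0 hN, h0, hn,
        pow_succ, mul_one]
  have o3 : om ^ 3 = -1 := by
    rw [pow_three]
    apply Complex.ext <;> simp
    · linear_combination (-3 / 8) * s3
    · linear_combination (-√3 / 8) * s3
  have un : ∀ k, ‖w k‖ = 1 := fun k => by
    simp only [w]
    rw [norm_mul, norm_pow, norm_om, one_pow, one_mul, h1 _ (Nat.mod_lt _ hN).le]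
  have key := hG.area (N * 3) w un (by simp [w, h0])
    (by rw [← add_zero (N * 3), w0 3 0 hN, h0, o3, mul_one]) (fun k k0 k1 => ?_) (fun k k1 => ?_)
  · have sp : ∀ f : ℕ → ℝ, ∑ k ∈ Finset.range (N * 3), f k =
        ∑ m ∈ Finset.range N, (f (N * 0 + m) + f (N * 1 + m) + f (N * 2 + m)) := fun f => by
      rw [show N * 3 = N * 1 + N + N by ring, Finset.sum_range_add, Finset.sum_range_add,
        Finset.sum_add_distrib, Finset.sum_add_distrib, show N * 1 + N = N * 2 by ring]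
      simp
    rw [sp] at key
    refine le_of_eq_of_le ?_ key
    rw [Finset.mul_sum]
    refine Finset.sum_congr rfl fun m hm => ?_
    have hm := Finset.mem_range.1 hm
    rw [w0 _ _ hm, w0 _ _ hm, w0 _ _ hm, w1 _ _ hm, w1 _ _ hm, w1 _ _ hm,
      ← hG.cr_sum (h1 m hm.le) (h1 _ hm)]
    simp only [pow_zero, one_mul, pow_one, sq, mul_assoc]
  · refine hG.im_pos (un k) hη ?_
    have hm := Nat.mod_lt k hN
    have c1 := hom _ hm
    have c2 : 0 ≤ (u (k % N)).im := by
      rcases (Nat.zero_le (k % N)).eq_or_lt with e | e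
      · rw [← e, h0]; simp
      · exact (him _ e hm).le
    have c3 : k / N < 3 := Nat.div_lt_of_lt_mul k1
    simp only [cr, om_re, om_im] at c1
    simp only [w]
    obtain e | e | e : k / N = 0 ∨ k / N = 1 ∨ k / N = 2 := by
      generalize k / N = q at c3
      omega
    · have : k < N := (Nat.div_eq_zero_iff_lt hN).1 e
      rw [e, pow_zero, one_mul, Nat.mod_eq_of_lt this]
      exact him k k0 this
    · rw [e, pow_one, Complex.mul_im, om_re, om_im]
      linarith
    · rw [e, sq]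
      simp only [Complex.mul_im, Complex.mul_re, om_re, om_im]
      nlinarith [s3]
  · have hm := Nat.mod_lt k hN
    have e := Nat.div_add_mod k N
    have a := hG.ap2' (h1 _ hm.le) (h1 _ hm) (hG.ap1_be (h1 _ hm.le) hη) (hG.ap1_be (h1 _ hm) hη)
      le_rfl (s0 _ hm) (s1 _ hm) (hre _ hm) le_rfl le_rfl
    rw [← e, w0 _ _ hm, w1 _ _ hm]
    exact a.crp _

/-- the area bound as a quadratic inequality -/
theorem Geo.ap3_low {A η : ℝ} {b : ℂ → ℂ} (hG : Geo A η b) (hη : η ≤ 2.62652) {N : ℕ} (hN : 0 < N)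
    {u : ℕ → ℂ} (h1 : ∀ m ≤ N, ‖u m‖ = 1) (h0 : u 0 = 1) (hn : u N = om)
    (him : ∀ m, 0 < m → m < N → 0 < (u m).im) (hom : ∀ m < N, 0 < cr (u m) om)
    (s0 : ∀ m < N, 0 < cr (u m) (u (m + 1))) (s1 : ∀ m < N, cr (u m) (u (m + 1)) ≤ 1 / 25)
    (hre : ∀ m < N, 0 ≤ (conj (u m) * u (m + 1)).re) {be : ℕ → ℝ}
    (hb : ∀ m < N, ‖b (u m)‖ ≤ be m ∧ ‖b (u (m + 1))‖ ≤ be m) :
    3 * ∑ m ∈ Finset.range N, ((1 + (‖b (u m)‖ ^ 2 + ‖b (u (m + 1))‖ ^ 2) / 2 -
      be m ^ 2 * ‖b (u m) - b (u (m + 1))‖ ^ 2 / 2) * cr (u m) (u (m + 1)) +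
      cr (b (u m)) (b (u (m + 1)))) ≤ A := by
  refine le_trans (mul_le_mul_of_nonneg_left (Finset.sum_le_sum fun m hm => ?_) (by norm_num))
    (hG.ap3 hη hN h1 h0 hn him hom s0 s1 hre)
  have hm := Finset.mem_range.1 hm
  linarith [mul_le_mul_of_nonneg_right (rho_mul_ge (hb m hm).1 (hb m hm).2) (s0 m hm).le]

end Pool.Agent.Lib.MP_fb520c_co.Dent
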