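import Pool.Agent.Lib.MP_fb520c_co.Dent.Loc
import Pool.Agent.Lib.MP_fb520c_co.Dent.Ap

/-! A rational check of the side conditions of the local cut. -/

set_option autoImplicit false

open Complex ComplexConjugate

namespace Pool.Agent.Lib.MP_fb520c_co.Dent

/-- the number `x + y √(-3)` -/
noncomputable def qe (x y : ℚ) : ℂ := ⟨x, √3 * y⟩

lemma qe_nsq (x y : ℚ) : ‖qe x y‖ ^ 2 = ((x ^ 2 + 3 * y ^ 2 : ℚ) : ℝ) := by
  rw [nsq, qe]; push_cast; linear_combination (y : ℝ) ^ 2 * s3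

lemma qe_unit {x y : ℚ} (h : x ^ 2 + 3 * y ^ 2 = 1) : ‖qe x y‖ = 1 := by
  have := qe_nsq x y
  rw [h, Rat.cast_one] at this
  nlinarith [norm_nonneg (qe x y)]

lemma qe_sub (x y x' y' : ℚ) : qe x y - qe x' y' = qe (x - x') (y - y') := by
  apply Complex.ext <;> simp [qe]; ring

lemma qe_add (x y x' y' : ℚ) : qe x y + qe x' y' = qe (x + x') (y + y') := by
  apply Complex.ext <;> simp [qe]; ring

lemma qe_two (x y : ℚ) : 2 * qe x y = qe (2 * x) (2 * y) := by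
  apply Complex.ext <;> simp [qe]; ring

lemma qe_cr (x y x' y' : ℚ) : cr (qe x y) (qe x' y') = ((x * y' - y * x' : ℚ) : ℝ) * √3 := by
  simp only [cr, qe]; push_cast; ring

lemma qe_dot (x y x' y' : ℚ) :
    (conj (qe x y) * qe x' y').re = ((x * x' + 3 * (y * y') : ℚ) : ℝ) := by
  simp only [qe, Complex.mul_re, Complex.conj_re, Complex.conj_im]; push_cast
  linear_combination (y : ℝ) * y' * s3

lemma s3_hi4 : √3 ≤ (1.7321 : ℝ) := Real.sqrt_le_iff.2 ⟨by norm_num, by norm_num⟩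

/-- rational parameters of one cell -/
structure ParQ where
  be : ℚ
  rb : ℚ
  c : ℚ
  ib : ℚ
  pbar : ℚ
  Tlo : ℚ
  Thi : ℚ
  ep : ℚ
  wr : ℚ
  n1 : ℚ
  n1' : ℚ
  n2 : ℚ
  D1 : ℚ
  Dbar : ℚ
  Wbar : ℚ
  c0 : ℚ

/-- scale and three directions `x + y √(-3)` -/
structure Dirs where
  h : ℚ
  xm : ℚ
  ym : ℚ
  x0 : ℚ
  y0 : ℚ
  xp : ℚ
  yp : ℚ

namespace Dirs

variable (g : Dirs)

/-- the first direction -/
noncomputable def um : ℂ := qe g.xm g.ym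
/-- the middle direction -/
noncomputable def u0 : ℂ := qe g.x0 g.y0
/-- the last direction -/
noncomputable def up : ℂ := qe g.xp g.yp
/-- determinant of the first two directions over `√3` -/
def sm : ℚ := g.xm * g.y0 - g.ym * g.x0
/-- determinant of the last two directions over `√3` -/
def sp : ℚ := g.x0 * g.yp - g.y0 * g.xp
/-- determinant of the outer directions over `√3` -/
def so : ℚ := g.xm * g.yp - g.ym * g.xp
/-- the samples of `b` -/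
noncomputable def loc (b : ℂ → ℂ) : Loc := Loc.of b g.h g.um g.u0 g.up

end Dirs

namespace ParQ

variable (p : ParQ) (g : Dirs)

/-- the real parameters -/
def par : Par := ⟨p.be, p.rb, p.c, p.ib, p.pbar, p.Tlo, p.Thi, p.ep, p.wr, p.n1, p.n1', p.n2,
  p.D1, p.Dbar, p.Wbar, p.c0⟩

/-- lower bound of `q` -/
def ql : ℚ := 1 - g.h * p.ep

/-- bound of `‖W‖` -/
def wnext (d : ℚ) : ℚ :=
  2 * (9 * p.Thi ^ 3 * (1 - (1 - p.wr) ^ 2 / 4) ^ 2 / p.ql g ^ 2 +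
    3 * p.Thi * d ^ 2 / (4 * p.ql g)) / (433 / 250 * p.wr)

/-- bound of `‖D‖` -/
def dnext (d : ℚ) : ℚ :=
  (p.wnext g d + p.pbar * (p.rb * p.n2 + p.pbar ^ 2 + 2 * p.be * p.pbar * p.n1')) /
    (p.n1 - p.be * p.pbar)

lemma ql_cast : ((p.ql g : ℚ) : ℝ) = p.par.ql g.h := by
  simp [ql, Par.ql, par]

lemma wnext_cast (d : ℚ) : ((p.wnext g d : ℚ) : ℝ) = p.par.wnext g.h d := by
  rw [Par.wnext, ← ql_cast, wnext, show (1.732 : ℝ) = 433 / 250 by norm_num]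
  simp [par]

lemma dnext_cast (d : ℚ) : ((p.dnext g d : ℚ) : ℝ) = p.par.dnext g.h d := by
  rw [Par.dnext, ← wnext_cast, dnext]
  simp [par]

/-- the side conditions, as a decidable proposition over the rationals -/
def Good : Prop :=
  (0 < g.h ∧ g.xm ^ 2 + 3 * g.ym ^ 2 = 1 ∧ g.x0 ^ 2 + 3 * g.y0 ^ 2 = 1 ∧
    g.xp ^ 2 + 3 * g.yp ^ 2 = 1) ∧
  (1 + p.be ^ 2 / 2 ≤ p.rb ∧ 0 ≤ p.c ∧ p.c ≤ 1 ∧ p.be * p.c < 1) ∧
  (0 < g.sm ∧ 0 < g.sp ∧ p.rb * (g.sm * (17321 / 10000)) ≤ p.ib * (1 - p.be * p.c) ∧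
    p.rb * (g.sp * (17321 / 10000)) ≤ p.ib * (1 - p.be * p.c) ∧
    p.ib * (p.rb * p.c + p.be * (1 + p.ib)) ≤ g.h * p.pbar) ∧
  (0 < p.Tlo ∧ p.Tlo * (p.rb + p.be * p.c) * (2 * g.h) ≤ g.so ∧
    p.rb * g.so ≤ p.Thi * (1 - p.be * p.c) * (2 * g.h) ∧ 60 * g.h * p.Thi ^ 2 ≤ 19 * p.ep ∧
    0 < p.ql g ∧ 0 < p.wr ∧ 320 / 279 * p.ep ≤ (41 / 93 - p.wr) * p.Tlo) ∧
  ((2 * g.h * p.n1) ^ 2 ≤ (g.xp - g.xm) ^ 2 + 3 * (g.yp - g.ym) ^ 2 ∧
    (g.xp - g.xm) ^ 2 + 3 * (g.yp - g.ym) ^ 2 ≤ (2 * g.h * p.n1') ^ 2 ∧ 0 ≤ p.n1' ∧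
    (g.xp - 2 * g.x0 + g.xm) ^ 2 + 3 * (g.yp - 2 * g.y0 + g.ym) ^ 2 ≤ (g.h ^ 2 * p.n2) ^ 2 ∧
    0 ≤ p.n2 ∧ p.be * p.pbar < p.n1) ∧
  (p.dnext g (2 * p.pbar) ≤ p.D1 ∧ p.dnext g (g.h * p.D1) ≤ p.Dbar ∧
    p.wnext g (g.h * p.Dbar) ≤ p.Wbar ∧ 9 * p.Thi ^ 4 * (1 / p.ql g ^ 2 - 1) +
      3 * p.Thi ^ 2 * (g.h * p.Dbar) ^ 2 / (4 * p.ql g) ≤ p.c0) ∧
  (p.be ≤ 7 / 40 ∧ 0 < g.so ∧ g.sm ≤ g.so ∧ g.sp ≤ g.so ∧ g.so * (17321 / 10000) ≤ 1 / 25 ∧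
    3881 / 10000 + 4 / 5 * (g.so * (17321 / 10000)) ≤ p.c ∧ 0 ≤ g.xm * g.x0 + 3 * (g.ym * g.y0) ∧
    0 ≤ g.x0 * g.xp + 3 * (g.y0 * g.yp) ∧ 0 ≤ g.xm * g.xp + 3 * (g.ym * g.yp))

instance : Decidable (p.Good g) := by unfold Good; infer_instance

theorem Good.ok {p : ParQ} {g : Dirs} (H : p.Good g) : p.par.OK g.h g.um g.u0 g.up := by
  obtain ⟨⟨a1, a2, a3, a4⟩, ⟨b1, b2, b3, b4⟩, ⟨c1, c2, c3, c4, c5⟩, ⟨d1, d2, d3, d4, d5, d6, d7⟩,
    ⟨e1, e2, e3, e4, e5, e6⟩, ⟨f1, f2, f3, f4⟩, -⟩ := H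
  have rb0 : (0 : ℝ) ≤ p.rb := by
    have : (0 : ℚ) ≤ p.rb := le_trans (by positivity) b1
    exact_mod_cast this
  have key : ∀ s : ℚ, 0 < s → p.rb * (s * (17321 / 10000)) ≤ p.ib * (1 - p.be * p.c) →
      (p.rb : ℝ) * (s * √3) ≤ p.ib * (1 - p.be * p.c) := fun s s0 hs => by
    have k : (p.rb : ℝ) * (s * (17321 / 10000)) ≤ p.ib * (1 - p.be * p.c) := by
      simpa using (Rat.cast_le (K := ℝ)).2 hs
    refine le_trans (mul_le_mul_of_nonneg_left (mul_le_mul_of_nonneg_left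
      (s3_hi4.trans_eq (by norm_num)) (by exact_mod_cast s0.le)) rb0) k
  refine ⟨by exact_mod_cast a1, qe_unit a2, qe_unit a3, qe_unit a4, ?_, ?_, ?_, ?_, ?_, ?_, ?_, ?_,
    ?_, ?_, ?_, ?_, ?_, ?_, ?_, ?_, ?_, ?_, ?_, ?_, ?_, ?_, ?_, ?_⟩
  · simp only [par]; exact_mod_cast b1
  · simp only [par]; exact_mod_cast b2
  · simp only [par]; exact_mod_cast b3
  · simp only [par]; exact_mod_cast b4
  · rw [Dirs.um, Dirs.u0, qe_cr]; exact key _ c1 c3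
  · rw [Dirs.u0, Dirs.up, qe_cr]; exact key _ c2 c4
  · simp only [par]; exact_mod_cast c5
  · simp only [par]; exact_mod_cast d1
  · rw [Dirs.um, Dirs.up, qe_cr]
    refine mul_le_mul_of_nonneg_right ?_ s3_pos.le
    simp only [par]; exact_mod_cast d2
  · rw [Dirs.um, Dirs.up, qe_cr, ← mul_assoc]
    refine mul_le_mul_of_nonneg_right ?_ s3_pos.le
    simp only [par]; exact_mod_cast d3
  · simp only [par]; exact_mod_cast d4
  · rw [← ql_cast]; exact_mod_cast d5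
  · simp only [par]; exact_mod_cast d6
  · simp only [par]; simpa using (Rat.cast_le (K := ℝ)).2 d7
  · rw [Dirs.um, Dirs.up, qe_sub, qe_nsq]; simp only [par]; exact_mod_cast e1
  · rw [Dirs.um, Dirs.up, qe_sub, qe_nsq]; simp only [par]; exact_mod_cast e2
  · simp only [par]; exact_mod_cast e3
  · rw [Dirs.um, Dirs.u0, Dirs.up, qe_two, qe_sub, qe_add, qe_nsq]; simp only [par]
    exact_mod_cast e4
  · simp only [par]; exact_mod_cast e5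
  · simp only [par]; exact_mod_cast e6
  · have := dnext_cast p g (2 * p.pbar)
    push_cast at this
    refine this.symm.le.trans ?_
    simp only [par]; exact_mod_cast f1
  · have := dnext_cast p g (g.h * p.D1)
    push_cast at this
    refine this.symm.le.trans ?_
    simp only [par]; exact_mod_cast f2
  · have := wnext_cast p g (g.h * p.Dbar)
    push_cast at this
    refine this.symm.le.trans ?_
    simp only [par]; exact_mod_cast f3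
  · rw [← ql_cast]; simp only [par]; exact_mod_cast f4

/-- the hypotheses of the a priori bounds for a pair of directions -/
structure Close (be c : ℝ) (u v : ℂ) : Prop where
  be1 : be ≤ 7 / 40
  pos : 0 < cr u v
  le : cr u v ≤ 1 / 25
  dot : 0 ≤ (conj u * v).re
  cc : 0.3881 + 0.8 * cr u v ≤ c

theorem Good.close {p : ParQ} {g : Dirs} (H : p.Good g) :
    Close p.be p.c g.um g.u0 ∧ Close p.be p.c g.u0 g.up ∧ Close p.be p.c g.um g.up := by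
  obtain ⟨-, -, ⟨c1, c2, -⟩, -, -, -, a1, a2, a3, a4, a5, a6, a7, a8, a9⟩ := H
  have key : ∀ x y x' y' : ℚ, 0 < x * y' - y * x' → x * y' - y * x' ≤ g.so →
      0 ≤ x * x' + 3 * (y * y') → Close p.be p.c (qe x y) (qe x' y') := by
    intro x y x' y' k1 k2 k3
    have m1 : (0 : ℝ) < ((x * y' - y * x' : ℚ) : ℝ) := by exact_mod_cast k1
    have m2 : ((x * y' - y * x' : ℚ) : ℝ) ≤ g.so := by exact_mod_cast k2
    have m3 : ((x * y' - y * x' : ℚ) : ℝ) * √3 ≤ g.so * (17321 / 10000) :=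
      mul_le_mul m2 (s3_hi4.trans_eq (by norm_num)) s3_pos.le (by linarith)
    have m4 : (g.so : ℝ) * (17321 / 10000) ≤ 1 / 25 := by
      simpa using (Rat.cast_le (K := ℝ)).2 a5
    have m5 : 3881 / 10000 + 4 / 5 * ((g.so : ℝ) * (17321 / 10000)) ≤ p.c := by
      simpa using (Rat.cast_le (K := ℝ)).2 a6
    refine ⟨by simpa using (Rat.cast_le (K := ℝ)).2 a1, by rw [qe_cr]; exact mul_pos m1 s3_pos,
      by rw [qe_cr]; linarith, by rw [qe_dot]; exact_mod_cast k3, ?_⟩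
    rw [qe_cr, show (0.3881 : ℝ) = 3881 / 10000 by norm_num,
      show (0.8 : ℝ) = 4 / 5 by norm_num]
    linarith
  exact ⟨key _ _ _ _ c1 a3 a7, key _ _ _ _ c2 a4 a8, key _ _ _ _ a2 le_rfl a9⟩

/-- the facts about one cell from the rational check -/
theorem Good.pre {p : ParQ} {g : Dirs} (H : p.Good g) {A η : ℝ} {b : ℂ → ℂ} (hG : Geo A η b)
    (b1 : ‖b g.um‖ ≤ p.be) (b2 : ‖b g.u0‖ ≤ p.be) (b3 : ‖b g.up‖ ≤ p.be) :
    Pre p.par (g.loc b) := by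
  have hp := H.ok
  obtain ⟨c1, c2, c3⟩ := H.close
  exact Dent.pre hG hp b1 b2 b3
    (hG.ap2' hp.um1 hp.u01 b1 b2 c1.be1 c1.pos c1.le c1.dot hp.rb1 c1.cc)
    (hG.ap2' hp.u01 hp.up1 b2 b3 c2.be1 c2.pos c2.le c2.dot hp.rb1 c2.cc)
    (hG.ap2' hp.um1 hp.up1 b1 b3 c3.be1 c3.pos c3.le c3.dot hp.rb1 c3.cc)

end ParQ

end Pool.Agent.Lib.MP_fb520c_co.Dent
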