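import Mathlib

/-!
Interface between the geometric reduction and the certificate for the exclusion of one point
from the set of pairs (packing density, covering density) of symmetric planar bodies.
-/

set_option autoImplicit false

open Complex ComplexConjugate

noncomputable section

namespace Pool.Agent.Lib.MP_fb520c_co.Dent

/-- the sixth root of unity -/
def om : ℂ := ⟨1 / 2, √3 / 2⟩

/-- the determinant of two vectors -/
def cr (a b : ℂ) : ℝ := a.re * b.im - a.im * b.re

/-- the area form of the symmetric hexagon with vertices `± a, ± b, ± c` -/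
def hex (a b c : ℂ) : ℝ := cr a b + cr b c + cr a c

/-- the modulus of the conformal part of a unimodular map with anticonformal part `b` -/
def rho (b : ℂ) : ℝ := √(1 + ‖b‖ ^ 2)

/-- the vertex of the inscribed affine regular hexagon whose conformal part has direction `u` -/
def pnt (b : ℂ → ℂ) (u : ℂ) : ℂ := rho (b u) * u + b u

/-- conformal part of the hexagon at `v` seen from the hexagon at `u` -/
def relA (b : ℂ → ℂ) (u v : ℂ) : ℂ := rho (b u) * rho (b v) * (conj u * v) - b u * conj (b v)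

/-- anticonformal part of the hexagon at `v` seen from the hexagon at `u` -/
def relB (b : ℂ → ℂ) (u v : ℂ) : ℂ := rho (b u) * (conj u * b v) - rho (b v) * (b u * conj v)

/-- What the geometric reduction delivers. -/
structure Geo (A η : ℝ) (b : ℂ → ℂ) : Prop where
  base : b 1 = 0
  rot : ∀ u, ‖u‖ = 1 → b (om * u) = conj om * b u
  hexle : ∀ u v w, ‖u‖ = 1 → ‖v‖ = 1 → ‖w‖ = 1 → hex (pnt b u) (pnt b v) (pnt b w) ≤ η
  slope : ∀ u v, ‖u‖ = 1 → ‖v‖ = 1 →
    √3 * ((relA b u v + relB b u v).re - 1) ≤ 39 / 80 * |(relA b u v + relB b u v).im|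
  conv : ∀ u v w, ‖u‖ = 1 → ‖v‖ = 1 → ‖w‖ = 1 → 0 < cr (pnt b u) (pnt b v) →
    0 < cr (pnt b v) (pnt b w) → 0 < cr (pnt b u) (pnt b w) →
    0 ≤ cr (pnt b v - pnt b u) (pnt b w - pnt b v)
  area : ∀ (n : ℕ) (u : ℕ → ℂ), (∀ m, ‖u m‖ = 1) → u 0 = 1 → u n = -1 →
    (∀ m, 0 < m → m < n → 0 < (pnt b (u m)).im) →
    (∀ m < n, 0 < cr (pnt b (u m)) (pnt b (u (m + 1)))) →
    ∑ m ∈ Finset.range n, cr (pnt b (u m)) (pnt b (u (m + 1))) ≤ A

/-- The phase gauge: a fixed complex combination of seven values of `b` is real and nonnegative. -/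
def Phase (U c : Fin 7 → ℂ) (b : ℂ → ℂ) : Prop :=
  (∑ k, c k * b (U k)).im = 0 ∧ 0 ≤ (∑ k, c k * b (U k)).re

end Pool.Agent.Lib.MP_fb520c_co.Dent
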