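import Pool.Agent.Lib.MP_fb520c_co.R.Curve
import Pool.Agent.Lib.MP_fb520c_co.R.Pack
import Pool.Agent.Lib.MP_fb520c_co.Dent.Defs

/-! The geometric reduction: small packing density and large covering density give `Geo`. -/

set_option autoImplicit false

open MeasureTheory Set Real Filter Topology Metric ComplexConjugate
open scoped ENNReal

noncomputable section

namespace Pool.Agent.Lib.MP_fb520c_co

variable {C : Set Plane} {Q A H : ℝ}

lemma xi_low {E ξ : ℝ} (hE : E ≤ 1.01643) (h0 : 0 < ξ) (h : 1 ≤ ξ * (15 / 14 * E - 11 / 196 * ξ)) :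
    1120 ≤ 1159 * ξ := by
  by_contra hc
  push Not at hc
  nlinarith [mul_le_mul_of_nonneg_left hE h0.le]

/-- the slope of a supporting line at a vertex, in the frame of the hexagon -/
lemma Bad.slope (hC : Bad Q A H C) {E : ℝ} (hE : E ≤ 1.01643) (hH : H ≤ (1 + 2 * E) * Q)
    {x y : Plane} (h : Hex C x y) {p r : ℝ} (hz : p • x + r • y ∈ C) :
    p + r / 2 - 1 ≤ 39 / 160 * |r| := by
  have hS := hC.crit.sym0
  have hq := hC.crit.q h
  have hQ : 0 < Q := hq ▸ h.pos
  have mx := hS.g_le.1 h.g0.le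
  have my := hS.g_le.1 h.g1.le
  have mw := hS.g_le.1 h.g2.le
  have gz := hS.g_le.2 hz
  have ray : ∀ a b : ℝ, a ≠ 0 → ∃ ξ p1 r1 : ℝ, 0 < ξ ∧
      Hex C ((ξ * a) • x + (ξ * b) • y) (p1 • x + r1 • y) := fun a b ha => by
    have n0 : a • x + b • y ≠ 0 := fun e => by
      have := congrArg (fun z => dt z y) e
      simp only [dt_add_left, dt_smul_left, dt_self, dt_zero_left, mul_zero, add_zero] at this
      exact mul_ne_zero ha h.pos.ne' this
    have g := hS.g_pos n0
    obtain ⟨v, hv⟩ := hS.exists_hex (x := (gauge C (a • x + b • y))⁻¹ • (a • x + b • y)) (by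
      rw [hS.g_smul, abs_of_pos (inv_pos.2 g), inv_mul_cancel₀ g.ne'])
    obtain ⟨p1, r1, rfl⟩ := exists_coef h.pos v
    exact ⟨_, p1, r1, inv_pos.2 g, by rwa [smul_add, smul_smul, smul_smul] at hv⟩
  have canc : ∀ {a b : ℝ}, a * Q ≤ b * Q → a ≤ b := fun k => le_of_mul_le_mul_right k hQ
  rcases le_total r 0 with r0 | r0
  · obtain ⟨ξ, p1, r1, ξ0, k⟩ := ray (13 / 14) (1 / 7) (by norm_num)
    have d := hC.crit.q k
    rw [dt_comb, hq] at d
    have d' : ξ * (13 / 14) * r1 - ξ * (1 / 7) * p1 = 1 :=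
      mul_right_cancel₀ hQ.ne' (by rw [d, one_mul])
    have k1 := (hC.hexa _ mx _ (hS.g_le.1 k.g1.le) _ (hS.g_le.1 k.g2.le)).trans hH
    have k2 := (hC.hexa _ mx _ my _ (hS.g_le.1 k.g2.le)).trans hH
    rw [hform, dt_next, hC.crit.q k] at k1
    rw [hform] at k2
    simp only [dt_add_right, dt_sub_right, dt_smul_right, dt_self, dt_swap x y, hq] at k1 k2
    have c1 : 2 * r1 - ξ / 7 ≤ 2 * E := canc (by linarith)
    have c2 : r1 - p1 + 11 / 14 * ξ ≤ 2 * E := canc (by linarith)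
    have l := xi_low hE ξ0 (by nlinarith)
    have := hS.g_comb (x := (-r * (ξ * (13 / 14)) + ξ / 7 * p) • x)
      (u := (ξ * (13 / 14)) • x + (ξ * (1 / 7)) • y) (v := p • x + r • y) (a := -r) (b := ξ / 7)
      (by linarith) (by linarith) (by module)
    rw [hS.g_smul, h.g0, k.g0] at this
    have m := le_abs_self (-r * (ξ * (13 / 14)) + ξ / 7 * p)
    rw [abs_of_nonpos r0]
    refine le_of_mul_le_mul_left ?_ ξ0
    nlinarith [mul_le_mul_of_nonneg_left gz ξ0.le, mul_le_mul_of_nonneg_left l (neg_nonneg.2 r0)]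
  · obtain ⟨ξ, p1, r1, ξ0, k⟩ := ray (15 / 14) (-1 / 7) (by norm_num)
    have d := hC.crit.q k
    rw [dt_comb, hq] at d
    have d' : ξ * (15 / 14) * r1 - ξ * (-1 / 7) * p1 = 1 :=
      mul_right_cancel₀ hQ.ne' (by rw [d, one_mul])
    have k1 := (hC.hexa _ mx _ (hS.g_le.1 k.g1.le) _ (hS.g_le.1 k.g2.le)).trans hH
    have k2 := (hC.hexa _ mx _ (hS.g_le.1 k.g1.le) _ mw).trans hH
    rw [hform, dt_next, hC.crit.q k] at k1
    rw [hform] at k2
    simp only [dt_add_left, dt_add_right, dt_sub_right, dt_smul_left, dt_smul_right, dt_self,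
      dt_swap x y, hq] at k1 k2
    have c1 : 2 * r1 + ξ / 7 ≤ 2 * E := canc (by linarith)
    have c2 : p1 + 2 * r1 ≤ 2 * E := canc (by linarith)
    have l := xi_low hE ξ0 (by nlinarith)
    have := hS.g_comb (x := (r * (ξ * (15 / 14)) + ξ / 7 * p) • x)
      (u := (ξ * (15 / 14)) • x + (ξ * (-1 / 7)) • y) (v := p • x + r • y) (a := r) (b := ξ / 7)
      r0 (by linarith) (by module)
    rw [hS.g_smul, h.g0, k.g0] at this
    have m := le_abs_self (r * (ξ * (15 / 14)) + ξ / 7 * p)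
    rw [abs_of_nonneg r0]
    refine le_of_mul_le_mul_left ?_ ξ0
    nlinarith [mul_le_mul_of_nonneg_left gz ξ0.le, mul_le_mul_of_nonneg_left l r0]

/-- the area of a symmetric polygon given by its vertices in a half-plane -/
lemma Sym0.half_poly (hC : Sym0 C) {z : ℕ → Plane} (hz : ∀ m, z m ∈ C) {n : ℕ}
    (hn : z (n + 1) = -z 0) (h1 : ∀ m, 0 < m → m < n + 1 → 0 < dt (z 0) (z m))
    (h2 : ∀ m < n + 1, 0 < dt (z m) (z (m + 1))) :
    ∑ m ∈ Finset.range (n + 1), dt (z m) (z (m + 1)) ≤ (volume C).toReal := by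
  have key : ∀ z : ℕ → Plane, (∀ m, z m ∈ C) → (∀ m, 0 < m → m < n + 1 → 0 < dt (z 0) (z m)) →
      (∀ m < n + 1, 0 < dt (z m) (z (m + 1))) → ∀ k ≤ n,
      ∑ m ∈ Finset.range k, dt (z m) (z (m + 1)) ≤ 2 * ar C (z 0) (z k) := by
    intro z hz h1 h2 k hk
    induction k with
    | zero => simpa using ar_nonneg _ _
    | succ k ih =>
      have p := h2 k (by omega)
      have s := ar_split hC.cpt (b := z k) (h1 (k + 1) (by omega) (by omega)) (by
        rcases k.eq_zero_or_pos with rfl | k0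
        · rw [dt_self]
        · exact (h1 k k0 (by omega)).le) p.le fun e => by
          rw [e, dt_zero_left] at p; exact lt_irrefl _ p
      rw [Finset.sum_range_succ]
      linarith [ih (by omega), hC.ar_tri (hz k) (hz (k + 1))]
  have nn : ∀ x y, dt (-x) (-y) = dt x y := fun x y => by rw [dt_neg_left, dt_neg_right, neg_neg]
  have k1 := key z hz h1 h2 _ le_rfl
  have k2 := key (fun m => -z m) (fun m => hC.sym _ (hz m)) (by simpa only [nn] using h1)
    (by simpa only [nn] using h2) _ le_rfl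
  simp only [nn] at k2
  rw [Finset.sum_range_succ, hn]
  have t1 := hC.ar_tri (hz n) (hC.sym _ (hz 0))
  have t2 := hC.ar_tri (hC.sym _ (hz n)) (hz 0)
  rw [dt_neg_left, ← dt_neg_right] at t2
  linarith [ar_four hC.cpt (z 0) (z n)]

lemma cont_of_graph {X Y : Type} [TopologicalSpace X] [TopologicalSpace Y] {K : Set Y}
    (hK : IsCompact K) {f : X → Y} (hf : ∀ x, f x ∈ K) (hg : IsClosed {p : X × Y | p.2 = f p.1}) :
    Continuous f := by
  refine continuous_iff_isClosed.2 fun S hS => ?_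
  have := isCompact_iff_compactSpace.1 hK
  have k := isClosedMap_fst_of_compactSpace (X := X) (Y := K)
    ((fun p : X × K => (p.1, (p.2 : Y))) ⁻¹' ({p : X × Y | p.2 = f p.1} ∩ Prod.snd ⁻¹' S))
    ((hg.inter (hS.preimage continuous_snd)).preimage (by fun_prop))
  convert k using 1
  ext x
  constructor
  · exact fun h => ⟨(x, ⟨f x, hf x⟩), ⟨rfl, h⟩, rfl⟩
  · rintro ⟨⟨x, y⟩, ⟨h1, h2⟩, rfl⟩
    have h1' : (y : Y) = f x := h1
    have h2' : (y : Y) ∈ S := h2
    show f x ∈ S
    rwa [← h1']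

namespace Dent

/-- the complex number with the coordinates of a point -/
def toC (z : Plane) : ℂ := ⟨z 0, z 1⟩

/-- the conformal part of a hexagon -/
def aC (x y : Plane) : ℂ := toC (aOf x y)

/-- the anticonformal part of a hexagon -/
def bC (x y : Plane) : ℂ := toC (x - aOf x y)

/-- the real linear map `z ↦ a z + b conj z` -/
def Tm (a b : ℂ) : Plane → Plane := mp (a.re + b.re) (b.im - a.im) (a.im + b.im) (a.re - b.re)

/-- the conformal part of the second hexagon in the frame of the first -/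
def rA (x y u v : Plane) : ℂ := conj (aC x y) * aC u v - bC x y * conj (bC u v)

/-- the anticonformal part of the second hexagon in the frame of the first -/
def rB (x y u v : Plane) : ℂ := conj (aC x y) * bC u v - bC x y * conj (aC u v)

/-- `a` is a nonnegative multiple of the unit vector `u` -/
def Dir (a u : ℂ) : Prop := (a * conj u).im = 0 ∧ 0 ≤ (a * conj u).re

lemma toC_norm (z : Plane) : ‖toC z‖ ^ 2 = ‖z‖ ^ 2 := by
  rw [norm_sq_eq, Complex.sq_norm, Complex.normSq_apply]; simp only [toC]; ring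

lemma toC_inj {z w : Plane} (h : toC z = toC w) : z = w :=
  plane_ext (congrArg Complex.re h) (congrArg Complex.im h)

lemma cr_toC (z w : Plane) : cr (toC z) (toC w) = dt z w := rfl

lemma toC_sub (z w : Plane) : toC (z - w) = toC z - toC w := rfl

lemma toC_eq (x y : Plane) : toC x = aC x y + bC x y := by rw [bC, toC_sub, aC]; ring

lemma aC_next (x y : Plane) : aC y (y - x) = om * aC x y := by
  rw [aC, aOf_next]
  apply Complex.ext <;> simp [toC, rot, om, aC]
  ring

lemma bC_next (x y : Plane) : bC y (y - x) = conj om * bC x y := by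
  rw [bC, bOf_next]
  apply Complex.ext <;> simp [toC, rot, om, bC]
  ring

lemma om_mul : om * conj om = 1 := by
  apply Complex.ext <;> simp [om]
  · linear_combination (1 / 4) * s3
  · ring

lemma om_add : om + conj om = 1 := by
  apply Complex.ext <;> simp [om]
  norm_num

lemma norm_om1 : ‖om‖ = 1 := by
  have := congrArg norm om_mul
  rw [norm_mul, Complex.norm_conj, norm_one] at this
  nlinarith [norm_nonneg om]

lemma ab_norm {x y : Plane} (h : dt x y = √3 / 2) : ‖aC x y‖ ^ 2 = 1 + ‖bC x y‖ ^ 2 := by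
  have := aOf_norm x y
  rw [h] at this
  rw [aC, bC, toC_norm, toC_norm]
  linear_combination this + (1 / 3) * s3

lemma ab_mul {x y : Plane} (h : dt x y = √3 / 2) :
    conj (aC x y) * aC x y - bC x y * conj (bC x y) = 1 := by
  rw [Complex.conj_mul', Complex.mul_conj']
  exact_mod_cast (by linarith [ab_norm h] : ‖aC x y‖ ^ 2 - ‖bC x y‖ ^ 2 = 1)

lemma ab_det {x y : Plane} (h : dt x y = √3 / 2) :
    ((aC x y).re + (bC x y).re) * ((aC x y).re - (bC x y).re) -
      ((bC x y).im - (aC x y).im) * ((aC x y).im + (bC x y).im) = 1 := by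
  have := ab_norm h
  simp only [Complex.sq_norm, Complex.normSq_apply] at this
  linarith

lemma aC_Tm (a b : ℂ) (u v : Plane) : aC (Tm a b u) (Tm a b v) = a * aC u v + b * conj (bC u v) := by
  apply Complex.ext <;> simp [aC, bC, toC, aOf, Tm, mp] <;> ring

lemma bC_Tm (a b : ℂ) (u v : Plane) : bC (Tm a b u) (Tm a b v) = a * bC u v + b * conj (aC u v) := by
  apply Complex.ext <;> simp [aC, bC, toC, aOf, Tm, mp] <;> ring

lemma rA_Tm {x y : Plane} (h : dt x y = √3 / 2) (u v : Plane) :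
    rA x y (Tm (aC x y) (bC x y) u) (Tm (aC x y) (bC x y) v) = aC u v := by
  simp only [rA, aC_Tm, bC_Tm, map_add, map_mul, Complex.conj_conj]
  linear_combination aC u v * ab_mul h

lemma rB_Tm {x y : Plane} (h : dt x y = √3 / 2) (u v : Plane) :
    rB x y (Tm (aC x y) (bC x y) u) (Tm (aC x y) (bC x y) v) = bC u v := by
  simp only [rB, aC_Tm, bC_Tm, map_add, map_mul, Complex.conj_conj]
  linear_combination bC u v * ab_mul h

lemma rA_next (x y u v : Plane) : rA y (y - x) v (v - u) = rA x y u v := by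
  simp only [rA, aC_next, bC_next, map_mul, Complex.conj_conj]
  linear_combination (conj (aC x y) * aC u v - bC x y * conj (bC u v)) * om_mul

lemma rB_next (x y u v : Plane) : rB y (y - x) v (v - u) = conj om ^ 2 * rB x y u v := by
  simp only [rB, aC_next, bC_next, map_mul]
  ring

lemma Tm_one (x y : Plane) : Tm (aC x y) (bC x y) (pt 1 0) = x := by
  refine plane_ext ?_ ?_ <;> simp [Tm, mp, aC, bC, toC]

lemma Tm_om (x y : Plane) : Tm (aC x y) (bC x y) (pt (1 / 2) (√3 / 2)) = y := by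
  refine plane_ext ?_ ?_ <;> simp [Tm, mp, aC, bC, toC, aOf]
  · linear_combination (y 0 / 3 - x 0 / 6) * s3
  · linear_combination (y 1 / 3 - x 1 / 6) * s3

lemma Dir.eq {a u : ℂ} (h : Dir a u) (hu : ‖u‖ = 1) : a = ‖a‖ * u := by
  have e : conj u * u = 1 := by rw [Complex.conj_mul', hu]; simp
  have e1 : a * conj u = ((a * conj u).re : ℝ) := Complex.ext (by simp) (by simpa using h.1)
  have e2 := congrArg norm e1
  rw [norm_mul, Complex.norm_conj, hu, mul_one, Complex.norm_real, Real.norm_eq_abs,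
    abs_of_nonneg h.2] at e2
  rw [e2, ← e1, mul_assoc, e, mul_one]

lemma dir_of {u : ℂ} (hu : ‖u‖ = 1) {r : ℝ} (hr : 0 ≤ r) : Dir (r * u) u := by
  have e : u * conj u = 1 := by rw [Complex.mul_conj', hu]; simp
  rw [Dir, mul_assoc, e]
  simpa using hr

lemma toC_pol {u : ℂ} (hu : ‖u‖ = 1) (r : ℝ) : toC (pol r (Complex.arg u)) = r * u := by
  have h0 : u ≠ 0 := norm_ne_zero_iff.1 (by rw [hu]; norm_num)
  apply Complex.ext <;> simp [toC, pol, Complex.cos_arg h0, Complex.sin_arg, hu]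

lemma dir_exists (hC : Crit Q C) {u : ℂ} (hu : ‖u‖ = 1) : ∃ x y, Hex C x y ∧ Dir (aC x y) u := by
  obtain ⟨x, y, h, ρ, hρ, e⟩ := hC.exists_dir (Complex.arg u)
  exact ⟨x, y, h, by rw [aC, e, toC_pol hu]; exact dir_of hu hρ.le⟩

lemma aC_pos {x y : Plane} (h : 0 < dt x y) : 0 < ‖aC x y‖ := by
  have := aOf_norm x y
  have h3 : 0 < 2 * √3 / 3 * dt x y := mul_pos (by positivity) h
  rw [← toC_norm, ← aC] at this
  refine (norm_nonneg _).lt_of_ne fun e => ?_
  rw [← e] at this
  nlinarith [sq_nonneg ‖x - aOf x y‖]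

lemma dir_unique (hC : Crit Q C) {U : ℂ} (hU : ‖U‖ = 1) {x y u v : Plane} (h : Hex C x y)
    (k : Hex C u v) (d1 : Dir (aC x y) U) (d2 : Dir (aC u v) U) : u = x ∧ v = y :=
  hC.unique h k (aC_pos h.pos) (aC_pos k.pos) (t := Complex.arg U)
    (toC_inj (by rw [toC_pol hU]; exact d1.eq hU)) (toC_inj (by rw [toC_pol hU]; exact d2.eq hU))

lemma frame (hC : Bad (√3 / 2) A H C) {x y : Plane} (h : Hex C x y) :
    Bad (√3 / 2) A H (Tm (aC x y) (bC x y) ⁻¹' C) ∧
      (∀ u v, Hex (Tm (aC x y) (bC x y) ⁻¹' C) u v ↔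
        Hex C (Tm (aC x y) (bC x y) u) (Tm (aC x y) (bC x y) v)) ∧
      ∀ z, ∃ w, Tm (aC x y) (bC x y) w = z := by
  have d := ab_det (hC.crit.q h)
  have := hC.map (d ▸ one_pos)
  rw [d, div_one, div_one, div_one] at this
  exact ⟨this, fun u v => Hex.map (d ▸ one_pos), fun z => ⟨_, mp_inv (d ▸ one_ne_zero) z⟩⟩

lemma rel_exists (hC : Bad (√3 / 2) A H C) {x y : Plane} (h : Hex C x y) {U : ℂ} (hU : ‖U‖ = 1) :
    ∃ w : Plane × Plane, Hex C w.1 w.2 ∧ Dir (rA x y w.1 w.2) U := by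
  obtain ⟨f1, f2, -⟩ := frame hC h
  obtain ⟨u, v, k, d⟩ := dir_exists f1.crit hU
  exact ⟨(Tm (aC x y) (bC x y) u, Tm (aC x y) (bC x y) v), (f2 u v).1 k,
    by rwa [rA_Tm (hC.crit.q h)]⟩

lemma rel_unique (hC : Bad (√3 / 2) A H C) {x y : Plane} (h : Hex C x y) {U : ℂ} (hU : ‖U‖ = 1)
    {u v u' v' : Plane} (k : Hex C u v) (k' : Hex C u' v') (d : Dir (rA x y u v) U)
    (d' : Dir (rA x y u' v') U) : u' = u ∧ v' = v := by
  obtain ⟨f1, f2, f3⟩ := frame hC h
  obtain ⟨u, rfl⟩ := f3 u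
  obtain ⟨v, rfl⟩ := f3 v
  obtain ⟨u', rfl⟩ := f3 u'
  obtain ⟨v', rfl⟩ := f3 v'
  rw [rA_Tm (hC.crit.q h)] at d d'
  obtain ⟨rfl, rfl⟩ := dir_unique f1.crit hU ((f2 _ _).2 k) ((f2 _ _).2 k') d d'
  exact ⟨rfl, rfl⟩

lemma cont_sel (hC : Crit Q C) (hQ : 0 < Q) {f : ℝ → Plane × Plane} {g : ℝ × Plane × Plane → ℂ}
    (hg : Continuous g) (h1 : ∀ t, Hex C (f t).1 (f t).2 ∧ Dir (g (t, f t)) 1)
    (h2 : ∀ t w, Hex C w.1 w.2 → Dir (g (t, w)) 1 → w = f t) : Continuous f := by
  have hS := hC.sym0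
  have gc := hS.g_cont
  refine cont_of_graph (hS.cpt.prod hS.cpt)
    (fun t => ⟨hS.g_le.1 (h1 t).1.g0.le, hS.g_le.1 (h1 t).1.g1.le⟩) ?_
  have : {p : ℝ × Plane × Plane | p.2 = f p.1} = {p | gauge C p.2.1 = 1} ∩ ({p | gauge C p.2.2 = 1} ∩
      ({p | gauge C (p.2.2 - p.2.1) = 1} ∩ ({p | dt p.2.1 p.2.2 = Q} ∩
        ({p | (g p * conj 1).im = 0} ∩ {p | 0 ≤ (g p * conj 1).re})))) := by
    ext ⟨t, w⟩
    constructor
    · intro e
      obtain rfl : w = f t := e
      exact ⟨(h1 t).1.g0, (h1 t).1.g1, (h1 t).1.g2, hC.q (h1 t).1, (h1 t).2⟩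
    · rintro ⟨a0, a1, a2, a3, a4⟩
      exact h2 t w ⟨a0, a1, a2, (show dt w.1 w.2 = Q from a3) ▸ hQ⟩ a4
  rw [this]
  exact (isClosed_eq (by fun_prop) continuous_const).inter ((isClosed_eq (by fun_prop)
    continuous_const).inter ((isClosed_eq (by fun_prop) continuous_const).inter
      ((isClosed_eq (by unfold dt; fun_prop) continuous_const).inter
        ((isClosed_eq (by fun_prop) continuous_const).inter
          (isClosed_le continuous_const (by fun_prop))))))

lemma continuous_toC : Continuous toC := by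
  have : toC = fun z : Plane => ((z 0 : ℝ) : ℂ) + ((z 1 : ℝ) : ℂ) * Complex.I := by
    ext1 z; apply Complex.ext <;> simp [toC]
  rw [this]; fun_prop

lemma continuous_aC : Continuous fun w : Plane × Plane => aC w.1 w.2 :=
  continuous_toC.comp (by unfold aOf pt; fun_prop)

lemma continuous_bC : Continuous fun w : Plane × Plane => bC w.1 w.2 :=
  continuous_toC.comp (by unfold aOf pt; fun_prop)

lemma exists_ray {F : ℝ → ℂ} (hF : Continuous F) {p : ℝ} (h : ∀ t, F (t + p) = conj om ^ 2 * F t) :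
    ∃ t, (F t).im = 0 ∧ 0 ≤ (F t).re := by
  by_contra hn
  push Not at hn
  have h3 : 0 < √3 := by positivity
  have re : ∀ t, (F (t + p)).re = (-(F t).re + √3 * (F t).im) / 2 := fun t => by
    rw [h, pow_two]; simp [om]; linear_combination (-(F t).re / 4) * s3
  have im : ∀ t, (F (t + p)).im = (-(√3 * (F t).re) - (F t).im) / 2 := fun t => by
    rw [h, pow_two]; simp [om]; linear_combination (-(F t).im / 4) * s3
  have op : ∀ f1 g1 f2 g2 : ℝ → ℝ, Continuous f1 → Continuous g1 → Continuous f2 → Continuous g2 →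
      IsOpen {t | f1 t < g1 t ∧ f2 t < g2 t} := fun f1 g1 f2 g2 a b c d =>
    (isOpen_lt a b).inter (isOpen_lt c d)
  have o1 : IsOpen {t | 0 < (F t).im ∧ 0 < √3 * (F t).re + (F t).im} :=
    op _ _ _ _ (by fun_prop) (by fun_prop) (by fun_prop) (by fun_prop)
  have o2 : IsOpen {t | (F t).im < 0 ∧ (F t).im < √3 * (F t).re} :=
    op _ _ _ _ (by fun_prop) (by fun_prop) (by fun_prop) (by fun_prop)
  have o3 : IsOpen {t | √3 * (F t).re + (F t).im < 0 ∧ √3 * (F t).re < (F t).im} :=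
    op _ _ _ _ (by fun_prop) (by fun_prop) (by fun_prop) (by fun_prop)
  have s12 : ∀ t, (0 < (F t).im ∧ 0 < √3 * (F t).re + (F t).im) →
      (F (t + p)).im < 0 ∧ (F (t + p)).im < √3 * (F (t + p)).re := fun t k => by
    rw [re, im]
    exact ⟨by linarith, by nlinarith [s3]⟩
  have s23 : ∀ t, ((F t).im < 0 ∧ (F t).im < √3 * (F t).re) →
      √3 * (F (t + p)).re + (F (t + p)).im < 0 ∧ √3 * (F (t + p)).re < (F (t + p)).im := fun t k => by
    rw [re, im]
    exact ⟨by nlinarith [s3], by nlinarith [s3]⟩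
  have s31 : ∀ t, (√3 * (F t).re + (F t).im < 0 ∧ √3 * (F t).re < (F t).im) →
      0 < (F (t + p)).im ∧ 0 < √3 * (F (t + p)).re + (F (t + p)).im := fun t k => by
    rw [re, im]
    exact ⟨by linarith, by nlinarith [s3]⟩
  have cov : ∀ t, (0 < (F t).im ∧ 0 < √3 * (F t).re + (F t).im) ∨
      ((F t).im < 0 ∧ (F t).im < √3 * (F t).re) ∨
      (√3 * (F t).re + (F t).im < 0 ∧ √3 * (F t).re < (F t).im) := fun t => by
    have n0 := hn t
    have n1 := hn (t + p)
    have n2 := hn (t + p + p)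
    rw [re, im] at n2
    rw [re, im] at n1 n2
    generalize (F t).re = a at *
    generalize (F t).im = b at *
    have e : √3 * (√3 * b) = 3 * b := by rw [← mul_assoc, s3]
    have e' : √3 * (√3 * a) = 3 * a := by rw [← mul_assoc, s3]
    rcases lt_trichotomy b 0 with b0 | b0 | b0
    · rcases lt_trichotomy b (√3 * a) with c | c | c
      · exact Or.inr (Or.inl ⟨b0, c⟩)
      · exfalso
        have := n2 (by linarith)
        nlinarith
      · exact Or.inr (Or.inr ⟨by linarith, c⟩)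
    · have := mul_neg_of_pos_of_neg h3 (n0 b0)
      exact Or.inr (Or.inr ⟨by linarith, by linarith⟩)
    · rcases lt_trichotomy 0 (√3 * a + b) with c | c | c
      · exact Or.inl ⟨b0, c⟩
      · exfalso
        have := n1 (by linarith)
        nlinarith
      · exact Or.inr (Or.inr ⟨c, by linarith⟩)
  obtain ⟨t, ht⟩ : ∃ t, 0 < (F t).im ∧ 0 < √3 * (F t).re + (F t).im := by
    rcases cov 0 with k | k | k
    · exact ⟨_, k⟩
    · exact ⟨_, s31 _ (s23 _ k)⟩
    · exact ⟨_, s31 _ k⟩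
  obtain ⟨s, -, k1, k2⟩ := isPreconnected_univ _ _ o1 (o2.union o3) (fun t _ => cov t)
    ⟨t, trivial, ht⟩ ⟨t + p, trivial, Or.inl (s12 t ht)⟩
  rcases k2 with k2 | k2
  · linarith [k1.1, k2.1]
  · linarith [k1.2, k2.1]

lemma dir_one {a u : ℂ} : Dir (a * conj u) 1 ↔ Dir a u := by simp [Dir]

lemma exists_phase (hC : Bad (√3 / 2) A H C) (U c : Fin 7 → ℂ) (hU : ∀ k, ‖U k‖ = 1) :
    ∃ (x y : Plane) (w : Fin 7 → Plane × Plane), Hex C x y ∧
      (∀ k, Hex C (w k).1 (w k).2 ∧ Dir (rA x y (w k).1 (w k).2) (U k)) ∧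
      (∑ k, c k * rB x y (w k).1 (w k).2).im = 0 ∧ 0 ≤ (∑ k, c k * rB x y (w k).1 (w k).2).re := by
  have hS := hC.crit.sym0
  have hQ : (0 : ℝ) < √3 / 2 := by positivity
  have ex : ∀ t : ℝ, ‖Complex.exp (t * Complex.I)‖ = 1 := Complex.norm_exp_ofReal_mul_I
  have ep : ∀ t : ℝ, Complex.exp ((t + π / 3 : ℝ) * Complex.I) = om * Complex.exp (t * Complex.I) :=
    fun t => by
      rw [Complex.ofReal_add, add_mul, Complex.exp_add, mul_comm]
      congr 1
      apply Complex.ext
      · rw [Complex.exp_ofReal_mul_I_re, cos_pi_div_three]; rfl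
      · rw [Complex.exp_ofReal_mul_I_im, sin_pi_div_three]; rfl
  choose x y hx dx using fun t : ℝ => dir_exists hC.crit (ex t)
  have cx : Continuous fun t => (x t, y t) := cont_sel hC.crit hQ
    (g := fun p => aC p.2.1 p.2.2 * conj (Complex.exp (p.1 * Complex.I)))
    ((continuous_aC.comp continuous_snd).mul (by fun_prop)) (fun t => ⟨hx t, dir_one.2 (dx t)⟩)
    fun t w h d => by
      obtain ⟨e1, e2⟩ := dir_unique hC.crit (ex t) (hx t) h (dx t) (dir_one.1 d)
      exact Prod.ext e1 e2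
  have sh : ∀ t, x (t + π / 3) = y t ∧ y (t + π / 3) = y t - x t := fun t =>
    dir_unique hC.crit (ex _) ((hx t).next hS) (hx _) (by
      have := dx t
      rw [aC_next, ep, Dir, map_mul, show om * aC (x t) (y t) * (conj om *
        conj (Complex.exp (t * Complex.I))) = om * conj om * (aC (x t) (y t) *
        conj (Complex.exp (t * Complex.I))) by ring, om_mul, one_mul]
      exact this) (dx _)
  choose w hw dw using fun (k : Fin 7) (t : ℝ) => rel_exists hC (hx t) (hU k)
  have ca := continuous_aC.comp cx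
  have cb := continuous_bC.comp cx
  have cw : ∀ k, Continuous (w k) := fun k => cont_sel hC.crit hQ
    (g := fun p => rA (x p.1) (y p.1) p.2.1 p.2.2 * conj (U k))
    ((((Complex.continuous_conj.comp (ca.comp continuous_fst)).mul
      (continuous_aC.comp continuous_snd)).sub ((cb.comp continuous_fst).mul
        (Complex.continuous_conj.comp (continuous_bC.comp continuous_snd)))).mul continuous_const)
    (fun t => ⟨hw k t, dir_one.2 (dw k t)⟩) fun t z h d => by
      obtain ⟨e1, e2⟩ := rel_unique hC (hx t) (hU k) (hw k t) h (dw k t) (dir_one.1 d)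
      exact Prod.ext e1 e2
  obtain ⟨t, ht⟩ := exists_ray (F := fun t => ∑ k, c k * rB (x t) (y t) (w k t).1 (w k t).2)
    (continuous_finsetSum _ fun k _ => continuous_const.mul
      (((Complex.continuous_conj.comp ca).mul (continuous_bC.comp (cw k))).sub
        (cb.mul (Complex.continuous_conj.comp (continuous_aC.comp (cw k)))))) (p := π / 3)
    fun t => by
      rw [Finset.mul_sum]
      refine Finset.sum_congr rfl fun k _ => ?_
      have d := dw k (t + π / 3)
      rw [(sh t).1, (sh t).2] at d ⊢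
      obtain ⟨e1, e2⟩ := rel_unique hC ((hx t).next hS) (hU k) ((hw k t).next hS) (hw k _)
        (by rw [rA_next]; exact dw k t) d
      rw [e1, e2, rB_next]
      ring
  exact ⟨x t, y t, fun k => w k t, hx t, fun k => ⟨hw k t, dw k t⟩, ht⟩

lemma geo_of_base (hC : Bad (√3 / 2) A H C) (hH : H ≤ 2.62652)
    (h0 : Hex C (pt 1 0) (pt (1 / 2) (√3 / 2))) :
    ∃ b, Geo A H b ∧ ∀ u v U, ‖U‖ = 1 → Hex C u v → Dir (aC u v) U → b U = bC u v := by
  have hS := hC.crit.sym0
  have ex : ∀ u : ℂ, ∃ x y, Hex C x y ∧ (‖u‖ = 1 → Dir (aC x y) u) := fun u => by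
    by_cases hu : ‖u‖ = 1
    · obtain ⟨x, y, h, d⟩ := dir_exists hC.crit hu
      exact ⟨x, y, h, fun _ => d⟩
    · exact ⟨_, _, h0, fun h => absurd h hu⟩
  choose x y hx dx using ex
  have uq : ∀ u v U, ‖U‖ = 1 → Hex C u v → Dir (aC u v) U → x U = u ∧ y U = v :=
    fun u v U hU h d => dir_unique hC.crit hU h (hx U) d (dx U hU)
  have ea : ∀ u, ‖u‖ = 1 → aC (x u) (y u) = rho (bC (x u) (y u)) * u := fun u hu => by
    rw [rho, ← ab_norm (hC.crit.q (hx u)), Real.sqrt_sq (norm_nonneg _)]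
    exact (dx u hu).eq hu
  have ep : ∀ u, ‖u‖ = 1 → pnt (fun u => bC (x u) (y u)) u = toC (x u) := fun u hu => by
    rw [pnt, ← ea u hu, toC_eq (x u) (y u)]
  have mem : ∀ u, x u ∈ C := fun u => hS.g_le.1 (hx u).g0.le
  have a0 : aC (pt 1 0) (pt (1 / 2) (√3 / 2)) = 1 := by
    apply Complex.ext <;> simp [aC, toC, aOf]
    · linear_combination (1 / 6) * s3
  have b0 := uq _ _ 1 norm_one h0 (by rw [a0]; simp [Dir])
  have b1 := uq _ _ (-1) (by simp) (h0.neg hS) (by
    rw [aC, aOf_neg, show toC (-aOf (pt 1 0) (pt (1 / 2) (√3 / 2))) =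
      -aC (pt 1 0) (pt (1 / 2) (√3 / 2)) from rfl, a0]; simp [Dir])
  refine ⟨fun u => bC (x u) (y u), ⟨?_, fun u hu => ?_, fun u v w hu hv hw => ?_,
    fun u v hu hv => ?_, fun u v w hu hv hw h1 h2 h3 => ?_, fun n u hu e0 e1 h1 h2 => ?_⟩,
    fun u v U hU h d => by simp only [uq u v U hU h d]⟩
  · have := toC_eq (pt 1 0) (pt (1 / 2) (√3 / 2))
    rw [a0, show toC (pt 1 0) = 1 from rfl] at this
    simp only [b0]
    linear_combination -this
  · have := uq _ _ (om * u) (by rw [norm_mul, norm_om1, hu, one_mul]) ((hx u).next hS) (by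
      have := dx u hu
      rw [aC_next, Dir, map_mul, show om * aC (x u) (y u) * (conj om * conj u) =
        om * conj om * (aC (x u) (y u) * conj u) by ring, om_mul, one_mul]
      exact this)
    simp only [this, bC_next]
  · rw [ep u hu, ep v hv, ep w hw]
    exact hC.hexa _ (mem u) _ (mem v) _ (mem w)
  · obtain ⟨p, r, e⟩ := exists_coef (hx u).pos (x v)
    have s := hC.slope (E := 1.01643) le_rfl (hH.trans (by
      have : (1.73205 : ℝ) ≤ √3 := Real.le_sqrt_of_sq_le (by norm_num)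
      linarith)) (hx u) (e ▸ mem v)
    have e1 : relA (fun u => bC (x u) (y u)) u v + relB (fun u => bC (x u) (y u)) u v =
        p + r * om := by
      have k0 := toC_eq (x u) (y u)
      have k1 := toC_eq (y u) (y u - x u)
      rw [aC_next, bC_next] at k1
      have k2 : toC (x v) = p * toC (x u) + r * toC (y u) := by
        rw [e]; apply Complex.ext <;> simp [toC]
      have k3 := ab_mul (hC.crit.q (hx u))
      have k4 := toC_eq (x v) (y v)
      rw [k2, k0, k1, ea v hv] at k4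
      have k5 := congrArg conj k4
      rw [ea u hu] at k3 k4 k5
      simp only [map_add, map_mul, Complex.conj_ofReal, Complex.conj_conj] at k3 k5
      simp only [relA, relB]
      linear_combination (p + r * om) * k3 - rho (bC (x u) (y u)) * conj u * k4 +
        bC (x u) (y u) * k5
    rw [e1]
    simp only [Complex.add_re, Complex.add_im, Complex.mul_re, Complex.mul_im, Complex.ofReal_re,
      Complex.ofReal_im, om, zero_mul, sub_zero, add_zero, zero_add]
    have h3 : 0 < √3 := by positivity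
    rw [abs_mul, abs_of_pos (half_pos h3)]
    nlinarith [mul_le_mul_of_nonneg_left s h3.le]
  · rw [ep u hu, ep v hv, ep w hw] at *
    rw [← toC_sub, ← toC_sub]
    simp only [cr_toC] at *
    have := hS.g_comb (x := dt (x u) (x w) • x v) (u := x u) (v := x w) h2.le h1.le (plane_ext
      (by simp only [dt, PiLp.add_apply, PiLp.smul_apply, smul_eq_mul]; ring)
      (by simp only [dt, PiLp.add_apply, PiLp.smul_apply, smul_eq_mul]; ring))
    rw [hS.g_smul, (hx u).g0, (hx v).g0, (hx w).g0, abs_of_pos h3] at this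
    simp only [dt_sub_left, dt_sub_right, dt_self]
    linarith
  · simp only [ep _ (hu _), cr_toC] at h1 h2 ⊢
    rcases n with _ | n
    · rw [e0] at e1; norm_num at e1
    refine (hS.half_poly (z := fun m => x (u m)) (fun m => mem _) (by simp only [e0, e1, b0, b1])
      (fun m m0 m1 => ?_) h2).trans hC.area
    have := h1 m m0 m1
    simpa [e0, b0, dt, toC] using this

/-- the geometric reduction -/
theorem geo (h1 : IsConvexBody C) (h2 : IsCentrallySymmetric C) {X Y : ℝ} (hY : 0 < Y)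
    (hδ : packingDensity C < X) (hθ : Y ≤ coveringDensity C) (hη : 2 * √3 * X / Y ≤ 2.62652)
    (U c : Fin 7 → ℂ) (hU : ∀ k, ‖U k‖ = 1) :
    ∃ b, Geo (2 * √3 * X) (2 * √3 * X / Y) b ∧ Phase U c b := by
  obtain ⟨Q, S, hQ, hS⟩ := exists_bad h1 h2 hY hδ hθ
  have h3 : 0 < √3 := by positivity
  have hB := hS.map (a := 2 * Q / √3) (b := 0) (c := 0) (d := 1) (by simp; positivity)
  rw [show Q / (2 * Q / √3 * 1 - 0 * 0) = √3 / 2 by field_simp; ring,
    show 4 * X * Q / (2 * Q / √3 * 1 - 0 * 0) = 2 * √3 * X by field_simp; ring,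
    show 4 * X / Y * Q / (2 * Q / √3 * 1 - 0 * 0) = 2 * √3 * X / Y by field_simp; ring] at hB
  obtain ⟨x, y, w, hx, hw, hp⟩ := exists_phase hB U c hU
  obtain ⟨f1, f2, f3⟩ := frame hB hx
  obtain ⟨b, g, hb⟩ := geo_of_base f1 hη ((f2 _ _).2 (by rwa [Tm_one, Tm_om]))
  refine ⟨b, g, ?_⟩
  have e : ∀ k, b (U k) = rB x y (w k).1 (w k).2 := fun k => by
    obtain ⟨u, eu⟩ := f3 (w k).1
    obtain ⟨v, ev⟩ := f3 (w k).2
    obtain ⟨k1, k2⟩ := hw k
    rw [← eu, ← ev] at k1 k2 ⊢
    rw [rA_Tm (hB.crit.q hx)] at k2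
    rw [rB_Tm (hB.crit.q hx), hb u v _ (hU k) ((f2 _ _).2 k1) k2]
  simpa only [Phase, e] using hp

end Dent

end Pool.Agent.Lib.MP_fb520c_co
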