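import Pool.Agent.Lib.MP_fb520c_co.Defs

/-! Two bodies and an empty quadrant between them give non-convexity. -/

set_option autoImplicit false

namespace Pool.Agent.Lib.MP_fb520c_co

/-- some symmetric body has packing density at most `x` and covering density at least `y` -/
def EndBody (x y : ℝ) : Prop :=
  ∃ C : Set Plane, IsConvexBody C ∧ IsCentrallySymmetric C ∧ packingDensity C ≤ x ∧
    y ≤ coveringDensity C

/-- no symmetric body has packing density below `X` and covering density at least `Y` -/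
def Empty2 (X Y : ℝ) : Prop :=
  ∀ C : Set Plane, IsConvexBody C → IsCentrallySymmetric C → packingDensity C < X →
    Y ≤ coveringDensity C → False

theorem not_convex_of {x1 y1 x2 y2 s X Y : ℝ} (B1 : EndBody x1 y1) (B2 : EndBody x2 y2)
    (h0 : 0 ≤ s) (h1 : s ≤ 1) (hX : (1 - s) * x1 + s * x2 < X) (hY : Y ≤ (1 - s) * y1 + s * y2)
    (hD : Empty2 X Y) : ¬Convex ℝ omegaStar := by
  intro hc
  obtain ⟨C1, a1, a2, a3, a4⟩ := B1
  obtain ⟨C2, b1, b2, b3, b4⟩ := B2
  have h2 : 0 ≤ 1 - s := by linarith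
  obtain ⟨C, c1, c2, e⟩ := hc ⟨C1, a1, a2, rfl⟩ ⟨C2, b1, b2, rfl⟩ h2 h0 (by ring)
  simp only [Prod.smul_mk, Prod.mk_add_mk, smul_eq_mul, Prod.mk.injEq] at e
  refine hD C c1 c2 ?_ ?_
  · rw [← e.1]
    linarith [mul_le_mul_of_nonneg_left a3 h2, mul_le_mul_of_nonneg_left b3 h0]
  · rw [← e.2]
    linarith [mul_le_mul_of_nonneg_left a4 h2, mul_le_mul_of_nonneg_left b4 h0]

end Pool.Agent.Lib.MP_fb520c_co
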