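import Pool.Agent.Lib.MP_fb520c_co.Dent.Defs

/-! A quadratic lower bound for the area of a hexagon with sampled vertices. -/

set_option autoImplicit false

open Complex ComplexConjugate

noncomputable section

namespace Pool.Agent.Lib.MP_fb520c_co.Dent

/-- an affine minorant of `rho` -/
def rlow (n0 : ℝ) (n b : ℂ) : ℝ := n0 + (conj n * b).re

/-- the vertex with `rho` replaced by its minorant -/
def plow (n0 : ℝ) (n u b : ℂ) : ℂ := rlow n0 n b * u + b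

/-- a quadratic minorant of `rho - rlow` -/
def gap (rb n0 : ℝ) (n b : ℂ) : ℝ := (1 + ‖b‖ ^ 2 - rlow n0 n b ^ 2) / (2 * rb)

/-- the quadratic minorant of the area of the hexagon -/
def glow (rb : ℝ) (n0 cm : Fin 3 → ℝ) (n u b : Fin 3 → ℂ) : ℝ :=
  hex (plow (n0 0) (n 0) (u 0) (b 0)) (plow (n0 1) (n 1) (u 1) (b 1))
    (plow (n0 2) (n 2) (u 2) (b 2)) +
  (cm 0 * gap rb (n0 0) (n 0) (b 0) + cm 1 * gap rb (n0 1) (n 1) (b 1) +
    cm 2 * gap rb (n0 2) (n 2) (b 2))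

lemma rho_sq' (b : ℂ) : rho b ^ 2 = 1 + ‖b‖ ^ 2 := Real.sq_sqrt (by positivity)

lemma one_le_rho' (b : ℂ) : 1 ≤ rho b := Real.le_sqrt_of_sq_le (by nlinarith [sq_nonneg ‖b‖])

lemma rho_le' {b : ℂ} {be rb : ℝ} (hb : ‖b‖ ≤ be) (h : 1 + be ^ 2 / 2 ≤ rb) : rho b ≤ rb := by
  have := pow_le_pow_left₀ (norm_nonneg b) hb 2
  refine (Real.sqrt_le_sqrt (show 1 + ‖b‖ ^ 2 ≤ (1 + be ^ 2 / 2) ^ 2 by
    nlinarith [sq_nonneg (be ^ 2)])).trans ?_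
  rwa [Real.sqrt_sq (by positivity)]

lemma abs_re_conj_mul (n b : ℂ) : |(conj n * b).re| ≤ ‖n‖ * ‖b‖ :=
  (abs_re_le_norm _).trans_eq (by rw [norm_mul, Complex.norm_conj])

lemma rlow_sq {n0 : ℝ} {n : ℂ} (h : n0 ^ 2 + ‖n‖ ^ 2 ≤ 1) (b : ℂ) :
    rlow n0 n b ^ 2 ≤ 1 + ‖b‖ ^ 2 := by
  have k := abs_re_conj_mul n b
  have k1 : |rlow n0 n b| ≤ |n0| + ‖n‖ * ‖b‖ := (abs_add_le _ _).trans (by linarith)
  have k2 := pow_le_pow_left₀ (abs_nonneg _) k1 2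
  rw [sq_abs] at k2
  nlinarith [sq_nonneg (|n0| * ‖b‖ - ‖n‖), sq_abs n0, sq_nonneg ‖b‖]

lemma rlow_le {n0 : ℝ} {n : ℂ} (h : n0 ^ 2 + ‖n‖ ^ 2 ≤ 1) (b : ℂ) : rlow n0 n b ≤ rho b :=
  Real.le_sqrt_of_sq_le (rlow_sq h b)

lemma gap_nonneg {rb n0 : ℝ} {n : ℂ} (h : n0 ^ 2 + ‖n‖ ^ 2 ≤ 1) (hr : 0 ≤ rb) (b : ℂ) :
    0 ≤ gap rb n0 n b :=
  div_nonneg (by linarith [rlow_sq h b]) (by linarith)

lemma gap_le {rb n0 : ℝ} {n b : ℂ} (h : n0 ^ 2 + ‖n‖ ^ 2 ≤ 1) (hr : rho b ≤ rb) :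
    gap rb n0 n b ≤ rho b - rlow n0 n b := by
  have k1 := rlow_le h b
  have k2 := one_le_rho' b
  rw [gap, div_le_iff₀ (by linarith), ← rho_sq']
  nlinarith

lemma abs_cr_le (a b : ℂ) : |cr a b| ≤ ‖a‖ * ‖b‖ := by
  rw [show cr a b = (conj a * b).im by simp [cr]; ring]
  exact (abs_im_le_norm _).trans_eq (by rw [norm_mul, Complex.norm_conj])

/-- the side conditions of the minorant; `lm` is a lower bound of the three `rlow` -/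
structure GlowOK (be rb lm : ℝ) (n0 cm : Fin 3 → ℝ) (n u : Fin 3 → ℂ) : Prop where
  rb1 : 1 + be ^ 2 / 2 ≤ rb
  un : ∀ i, ‖u i‖ = 1
  nn : ∀ i, n0 i ^ 2 + ‖n i‖ ^ 2 ≤ 1
  lo : ∀ i, lm + ‖n i‖ * be ≤ n0 i
  lm1 : lm ≤ 1
  c01 : 0 ≤ cr (u 0) (u 1)
  c12 : 0 ≤ cr (u 1) (u 2)
  c02 : 0 ≤ cr (u 0) (u 2)
  cm0 : ∀ i, 0 ≤ cm i
  m0 : cm 0 + 2 * be ≤ lm * (cr (u 0) (u 1) + cr (u 0) (u 2))
  m1 : cm 1 + 2 * be ≤ lm * (cr (u 0) (u 1) + cr (u 1) (u 2))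
  m2 : cm 2 + 2 * be ≤ lm * (cr (u 0) (u 2) + cr (u 1) (u 2))

theorem glow_le {be rb lm : ℝ} {n0 cm : Fin 3 → ℝ} {n u b : Fin 3 → ℂ}
    (h : GlowOK be rb lm n0 cm n u) (hb : ∀ i, ‖b i‖ ≤ be) :
    glow rb n0 cm n u b ≤ hex (rho (b 0) * u 0 + b 0) (rho (b 1) * u 1 + b 1)
      (rho (b 2) * u 2 + b 2) := by
  have g := fun i => gap_le (h.nn i) (rho_le' (hb i) h.rb1)
  have g0 := fun i => rlow_le (h.nn i) (b i)
  have r := fun i => h.lm1.trans (one_le_rho' (b i))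
  have l : ∀ i, lm ≤ rlow (n0 i) (n i) (b i) := fun i => by
    have k := abs_le.1 (abs_re_conj_mul (n i) (b i))
    have k1 := mul_le_mul_of_nonneg_left (hb i) (norm_nonneg (n i))
    rw [rlow]
    linarith [h.lo i]
  have c : ∀ i j, |cr (u i) (b j)| ≤ be := fun i j =>
    (abs_cr_le _ _).trans (by rw [h.un, one_mul]; exact hb j)
  have e : hex (rho (b 0) * u 0 + b 0) (rho (b 1) * u 1 + b 1) (rho (b 2) * u 2 + b 2) =
      hex (plow (n0 0) (n 0) (u 0) (b 0)) (plow (n0 1) (n 1) (u 1) (b 1))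
        (plow (n0 2) (n 2) (u 2) (b 2)) +
      ((rho (b 0) - rlow (n0 0) (n 0) (b 0)) * (rho (b 1) * cr (u 0) (u 1) +
        rho (b 2) * cr (u 0) (u 2) + cr (u 0) (b 1) + cr (u 0) (b 2)) +
      (rho (b 1) - rlow (n0 1) (n 1) (b 1)) * (rlow (n0 0) (n 0) (b 0) * cr (u 0) (u 1) +
        rho (b 2) * cr (u 1) (u 2) - cr (u 1) (b 0) + cr (u 1) (b 2)) +
      (rho (b 2) - rlow (n0 2) (n 2) (b 2)) * (rlow (n0 0) (n 0) (b 0) * cr (u 0) (u 2) +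
        rlow (n0 1) (n 1) (b 1) * cr (u 1) (u 2) - cr (u 2) (b 0) - cr (u 2) (b 1))) := by
    simp only [hex, cr, plow, add_re, add_im, mul_re, mul_im, ofReal_re, ofReal_im]
    ring
  have k : ∀ {i : Fin 3} {t : ℝ}, cm i ≤ t →
      cm i * gap rb (n0 i) (n i) (b i) ≤ (rho (b i) - rlow (n0 i) (n i) (b i)) * t := by
    intro i t ht
    rw [mul_comm]
    exact mul_le_mul (g i) ht (h.cm0 i) (by linarith [g0 i])
  have a01 := abs_le.1 (c 0 1)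
  have a02 := abs_le.1 (c 0 2)
  have a10 := abs_le.1 (c 1 0)
  have a12 := abs_le.1 (c 1 2)
  have a20 := abs_le.1 (c 2 0)
  have a21 := abs_le.1 (c 2 1)
  rw [e, glow]
  refine add_le_add le_rfl (add_le_add (add_le_add (k ?_) (k ?_)) (k ?_))
  · linarith [h.m0, mul_le_mul_of_nonneg_right (r 1) h.c01, mul_le_mul_of_nonneg_right (r 2) h.c02]
  · linarith [h.m1, mul_le_mul_of_nonneg_right (l 0) h.c01, mul_le_mul_of_nonneg_right (r 2) h.c12]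
  · linarith [h.m2, mul_le_mul_of_nonneg_right (l 0) h.c02, mul_le_mul_of_nonneg_right (l 1) h.c12]

/-- the hexagon constraint in quadratic form -/
theorem Geo.glow_le {A η : ℝ} {b : ℂ → ℂ} (hg : Geo A η b) {be rb lm : ℝ} {n0 cm : Fin 3 → ℝ}
    {n u : Fin 3 → ℂ} (h : GlowOK be rb lm n0 cm n u) (hb : ∀ i, ‖b (u i)‖ ≤ be) :
    glow rb n0 cm n u (fun i => b (u i)) ≤ η :=
  (Dent.glow_le h hb).trans (hg.hexle _ _ _ (h.un 0) (h.un 1) (h.un 2))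

/-- the product of two almost nonnegative quantities -/
lemma prod_low {l l' R R' U U' : ℝ} (h : 0 ≤ l + R) (h' : 0 ≤ l' + R') (hR : 0 ≤ R) (hR' : 0 ≤ R')
    (hU : l ≤ U) (hU' : l' ≤ U') (U0 : 0 ≤ U) (U0' : 0 ≤ U') : -(R * U') - R' * U ≤ l * l' := by
  have p1 := mul_nonneg hR U0'
  have p2 := mul_nonneg hR' U0
  rcases le_total 0 l with a | a <;> rcases le_total 0 l' with a' | a'
  · nlinarith [mul_nonneg a a']
  · nlinarith [mul_nonneg a h', mul_le_mul_of_nonneg_left hU hR']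
  · nlinarith [mul_nonneg h a', mul_le_mul_of_nonneg_left hU' hR]
  · nlinarith [mul_nonneg_of_nonpos_of_nonpos a a']

end Pool.Agent.Lib.MP_fb520c_co.Dent
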