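import Pool.Agent.Lib.MP_fb520c_co.Dent.LocId

/-! The local cut. -/

set_option autoImplicit false

open Complex ComplexConjugate

noncomputable section

namespace Pool.Agent.Lib.MP_fb520c_co.Dent

/-- `r1` with the middle modulus in the denominator -/
theorem Out.r1_near {p : Par} {L : Loc} (h : Out p L) (h0 : L.h ≠ 0) :
    |L.r1 - (conj L.bM * L.P).re / L.r0| ≤
      L.h ^ 2 * (p.be * p.pbar) * (p.be * p.Dbar + p.pbar ^ 2) / 2 := by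
  have k0 : 1 ≤ L.r0 := one_le_rho _
  have e : L.r1 - (conj L.bM * L.P).re / L.r0 = -(L.h ^ 2 * (L.r1 * L.r2) / 2 / L.r0) := by
    rw [← L.r1_eq h0, Loc.ra]; field_simp; ring
  have k := mul_le_mul h.hr1 h.hr2 (abs_nonneg _) ((abs_nonneg _).trans h.hr1)
  rw [e, abs_neg, abs_div, abs_div, abs_mul, abs_mul, abs_two, abs_of_nonneg (sq_nonneg _),
    abs_of_pos (by linarith : 0 < L.r0)]
  refine (div_le_self (by positivity) k0).trans ?_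
  nlinarith [sq_nonneg L.h]

lemma Ap2.step {b : ℂ → ℂ} {be rb c ib t : ℝ} {u v : ℂ} (a : Ap2 b be rb c u v) (h1 : 0 ≤ be)
    (h2 : 0 ≤ rb) (h3 : 0 ≤ c) (h4 : be * c < 1) (h5 : rb * cr u v ≤ ib * (1 - be * c))
    (h6 : ib * (rb * c + be * (1 + ib)) ≤ t) : ‖b v - b u‖ ≤ t := by
  have k : (relA b u v).im ≤ ib := le_of_mul_le_mul_right (a.up.trans h5) (by linarith)
  have k0 := a.pos
  refine a.db.trans (le_trans (mul_le_mul k ?_ (by positivity) (by linarith)) h6)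
  nlinarith

/-- the bound for the second difference of the moduli -/
lemma Loc.r2_le (L : Loc) (h0 : 0 < L.h) {be pb : ℝ} (hb : ‖L.b0‖ ≤ be)
    (h1 : ‖L.bp - L.b0‖ ≤ L.h * pb) (h2 : ‖L.b0 - L.bm‖ ≤ L.h * pb) :
    |L.r2| ≤ be * ‖L.D‖ + pb ^ 2 := by
  have k0 : 1 ≤ L.r0 := one_le_rho _
  have e := L.r2_eq h0.ne'
  have l1 := rho_lip L.bp L.b0
  have l2 := rho_lip L.b0 L.bm
  have m1 := pow_le_pow_left₀ (norm_nonneg _) h1 2
  have m2 := pow_le_pow_left₀ (norm_nonneg _) h2 2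
  have e1 : ‖L.bp - L.b0‖ ^ 2 + ‖L.b0 - L.bm‖ ^ 2 =
      2 * L.h ^ 2 * (‖L.P‖ ^ 2 + L.h ^ 2 * ‖L.D‖ ^ 2 / 4) := by
    have e2 : ∀ z : ℂ, (L.h : ℂ) ^ 2 * z / 2 = ((L.h ^ 2 / 2 : ℝ) : ℂ) * z := fun z => by
      push_cast; ring
    conv_lhs => rw [L.bp_eq h0.ne', L.bm_eq h0.ne', L.b0_eq, e2]
    simp only [nsq, Complex.add_re, Complex.add_im, Complex.sub_re, Complex.sub_im, Complex.mul_re,
      Complex.mul_im, Complex.ofReal_re, Complex.ofReal_im]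
    ring
  have e3 : (rho L.bp - rho L.b0) ^ 2 + (rho L.b0 - rho L.bm) ^ 2 =
      2 * L.h ^ 2 * (L.r1 ^ 2 + L.h ^ 2 * L.r2 ^ 2 / 4) := by
    rw [L.rp h0.ne', L.rm h0.ne', Loc.ra, Loc.r0]; ring
  have hh : 0 < 2 * L.h ^ 2 := by positivity
  have x1 : ‖L.P‖ ^ 2 + L.h ^ 2 * ‖L.D‖ ^ 2 / 4 ≤ pb ^ 2 :=
    le_of_mul_le_mul_left (by nlinarith) hh
  have x2 : L.r1 ^ 2 + L.h ^ 2 * L.r2 ^ 2 / 4 ≤ ‖L.P‖ ^ 2 + L.h ^ 2 * ‖L.D‖ ^ 2 / 4 :=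
    le_of_mul_le_mul_left (by linarith) hh
  have x3 : 0 ≤ L.r1 ^ 2 + L.h ^ 2 * L.r2 ^ 2 / 4 := by positivity
  have x4 : |(conj L.b0 * L.D).re| ≤ be * ‖L.D‖ := by
    refine (Complex.abs_re_le_norm _).trans ?_
    rw [norm_mul, Complex.norm_conj]
    exact mul_le_mul_of_nonneg_right hb (norm_nonneg _)
  have x5 : |L.r0 * L.r2| ≤ be * ‖L.D‖ + pb ^ 2 := by
    rw [abs_le] at x4 ⊢
    constructor <;> nlinarith [sq_nonneg pb]
  rw [abs_mul, abs_of_pos (by linarith : 0 < L.r0)] at x5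
  nlinarith [abs_nonneg L.r2]

lemma Loc.sig_ge (L : Loc) (h0 : L.h ≠ 0) (hm : ‖L.um‖ = 1) (hp : ‖L.up‖ = 1) (hr : 1 ≤ L.ra) :
    ‖L.U1‖ ≤ ‖L.sig‖ := by
  have k1 : ‖L.up‖ ^ 2 = ‖L.um‖ ^ 2 := by rw [hm, hp]
  rw [L.up_eq h0, L.um_eq h0] at k1
  refine abs_le_of_sq_le_sq' ?_ (norm_nonneg _) |>.2
  rw [Loc.sig]
  simp only [nsq, Complex.add_re, Complex.add_im, Complex.sub_re, Complex.sub_im, Complex.mul_re,
    Complex.mul_im, Complex.ofReal_re, Complex.ofReal_im] at k1 ⊢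
  have k2 : L.Ua.re * L.U1.re + L.Ua.im * L.U1.im = 0 :=
    mul_left_cancel₀ h0 (by linear_combination (1 / 4) * k1)
  have k3 : 0 ≤ (L.ra ^ 2 - 1) * (L.U1.re ^ 2 + L.U1.im ^ 2) :=
    mul_nonneg (by nlinarith) (by positivity)
  have k4 : 0 ≤ L.r1 ^ 2 * (L.Ua.re ^ 2 + L.Ua.im ^ 2) := by positivity
  have k5 : L.ra * L.r1 * (L.Ua.re * L.U1.re + L.Ua.im * L.U1.im) = 0 := by rw [k2, mul_zero]
  nlinarith

lemma w_bound {C x y : ℝ} (k0 : 0 ≤ C + y) (k1 : 0 ≤ C - y / 2 - x / 2)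
    (k2 : 0 ≤ C - y / 2 + x / 2) : x ^ 2 + 3 * y ^ 2 ≤ 12 * C ^ 2 := by
  nlinarith [mul_nonneg k0 k1, mul_nonneg k0 k2, mul_nonneg k1 k2]

/-- the facts that come from the geometry -/
structure Pre (p : Par) (L : Loc) : Prop where
  k0 : 0 ≤ L.Cy + L.Wy
  k1 : 0 ≤ L.Cy - L.Wy / 2 - L.Wx / 2
  k2 : 0 ≤ L.Cy - L.Wy / 2 + L.Wx / 2
  reg : Reg p.Tlo p.Thi p.ep L.Th L.Zx L.Zy
  qlo : p.ql L.h ≤ L.q
  zb : L.Zx ^ 2 + 3 * L.Zy ^ 2 ≤ 3 * p.c ^ 2 * L.Th ^ 2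
  d1 : ‖L.b0 - L.bm‖ ≤ L.h * p.pbar
  d2 : ‖L.bp - L.b0‖ ≤ L.h * p.pbar
  b1 : ‖L.bm‖ ≤ p.be
  b2 : ‖L.b0‖ ≤ p.be
  b3 : ‖L.bp‖ ≤ p.be

lemma reg_aux {h T q ep x y : ℝ} (h0 : 0 < h) (hq : 1 - h * ep ≤ q) (hy : x ^ 2 + 3 * y ^ 2 ≤ 3 * T ^ 2)
    (hT : 0 ≤ T) (hk : √3 * |2 * h * x| ≤ √3 * (1 - (2 * q - 1)) +
      39 / 80 * |2 * h * (√3 * T) + 2 * h * (√3 * y)|) : |x| ≤ 39 / 80 * (T + y) + ep := by
  have hs : 0 < 2 * h * √3 := by positivity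
  have hy' := abs_le_of_sq_le_sq' (show y ^ 2 ≤ T ^ 2 by nlinarith [sq_nonneg x]) hT
  rw [show 2 * h * (√3 * T) + 2 * h * (√3 * y) = 2 * h * √3 * (T + y) by ring,
    abs_of_nonneg (mul_nonneg hs.le (by linarith [hy'.1])), abs_mul,
    abs_of_pos (by linarith : 0 < 2 * h)] at hk
  have := mul_le_mul_of_nonneg_left hq s3_pos.le
  exact le_of_mul_le_mul_left (a := 2 * h * √3) (by linarith) hs

theorem pre {A η : ℝ} {b : ℂ → ℂ} (hG : Geo A η b) {p : Par} {h : ℝ} {um u0 up : ℂ}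
    (hp : p.OK h um u0 up) (b1 : ‖b um‖ ≤ p.be) (b2 : ‖b u0‖ ≤ p.be) (b3 : ‖b up‖ ≤ p.be)
    (a1 : Ap2 b p.be p.rb p.c um u0) (a2 : Ap2 b p.be p.rb p.c u0 up)
    (a3 : Ap2 b p.be p.rb p.c um up) : Pre p (Loc.of b h um u0 up) := by
  have h0 := hp.h0
  obtain ⟨k0, k1, k2⟩ := hG.curv h0 hp.um1 hp.u01 hp.up1 a1.crp a2.crp a3.crp
  have be0 : 0 ≤ p.be := (norm_nonneg _).trans b1
  have rb0 : 0 < p.rb := by nlinarith [hp.rb1, sq_nonneg p.be]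
  have c0 := hp.c0'
  have bc := hp.bc
  have d1 := a1.step be0 rb0.le c0 bc hp.ibm hp.pb
  have d2 := a2.step be0 rb0.le c0 bc hp.ibp hp.pb
  set L := Loc.of b h um u0 up with hL
  have h0' : L.h ≠ 0 := h0.ne'
  have eI : (relA b um up).im = 2 * h * (√3 * L.Th) := L.relA_im h0'
  have eR : (relA b um up).re = 2 * L.q - 1 := L.relA_re h0' hp.um1 hp.up1
  have eB : relB b um up = ((2 * h : ℝ) : ℂ) * L.Z := L.relB_eq h0'
  have hs : 0 < 2 * h * √3 := by positivity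
  have th0 : 0 < L.Th := by
    have := a3.pos
    rw [eI, ← mul_assoc] at this
    exact (mul_pos_iff_of_pos_left hs).1 this
  have tlo : p.Tlo ≤ L.Th := by
    have := hp.tlo.trans a3.lo
    rw [eI] at this
    refine le_of_mul_le_mul_right (a := (p.rb + p.be * p.c) * (2 * h * √3)) (by linarith) ?_
    positivity
  have thi : L.Th ≤ p.Thi := by
    have := a3.up.trans hp.thi
    rw [eI] at this
    exact le_of_mul_le_mul_right (a := (1 - p.be * p.c) * (2 * h * √3)) (by linarith)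
      (mul_pos (by linarith) hs)
  have th2 : L.Th ^ 2 ≤ p.Thi ^ 2 := pow_le_pow_left₀ th0.le thi 2
  have qlo : 1 - h * p.ep ≤ L.q := by
    have := a3.re
    rw [eI, eR, show (2 * h * (√3 * L.Th)) ^ 2 = 12 * h ^ 2 * L.Th ^ 2 by
      linear_combination 4 * h ^ 2 * L.Th ^ 2 * s3, show (1.9 : ℝ) = 19 / 10 by norm_num] at this
    have k := mul_le_mul_of_nonneg_left hp.ep1 h0.le
    have k' := mul_le_mul_of_nonneg_left th2 (sq_nonneg h)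
    linarith
  have zb : L.Zx ^ 2 + 3 * L.Zy ^ 2 ≤ 3 * p.c ^ 2 * L.Th ^ 2 := by
    have k := a3.bb
    rw [eI, eB, norm_mul, Complex.norm_real, Real.norm_eq_abs, abs_of_pos (by linarith)] at k
    have zn : ‖L.Z‖ ≤ p.c * (√3 * L.Th) :=
      le_of_mul_le_mul_left (a := 2 * h) (by linarith) (by linarith)
    have := pow_le_pow_left₀ (norm_nonneg _) zn 2
    rw [L.Zsq] at this
    refine this.trans_eq ?_
    linear_combination p.c ^ 2 * L.Th ^ 2 * s3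
  have zb1 : L.Zx ^ 2 + 3 * L.Zy ^ 2 ≤ 3 * L.Th ^ 2 := by
    have := mul_le_mul_of_nonneg_right (pow_le_one₀ (n := 2) c0 hp.c1) (sq_nonneg L.Th)
    linarith
  have r0 : |L.Zx| ≤ 39 / 80 * (L.Th + L.Zy) + p.ep := by
    refine reg_aux h0 qlo zb1 th0.le ?_
    have := hG.slope2 hp.um1 hp.up1
    rwa [eI, eR, eB, Complex.re_ofReal_mul, Complex.im_ofReal_mul, L.Zim] at this
  have r1 : |-L.Zx / 2 + 3 * L.Zy / 2| ≤ 39 / 80 * (L.Th + (-L.Zy / 2 - L.Zx / 2)) + p.ep := by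
    refine reg_aux h0 qlo (by linarith) th0.le ?_
    have := hG.slope2 (norm_om_mul hp.um1) (norm_om_mul hp.up1)
    rw [hG.relA_rot hp.um1 hp.up1, hG.relB_rot hp.um1 hp.up1, rot1_re, rot1_im, eI, eR, eB,
      Complex.re_ofReal_mul, Complex.im_ofReal_mul, L.Zim] at this
    convert this using 4
    · rw [Loc.Zx]; linear_combination (-h * L.Zy) * s3
    · rw [Loc.Zx]; ring
  have r2 : |-L.Zx / 2 - 3 * L.Zy / 2| ≤ 39 / 80 * (L.Th + (-L.Zy / 2 + L.Zx / 2)) + p.ep := by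
    refine reg_aux h0 qlo (by linarith) th0.le ?_
    have := hG.slope2 (norm_om_mul (norm_om_mul hp.um1)) (norm_om_mul (norm_om_mul hp.up1))
    rw [hG.relA_rot (norm_om_mul hp.um1) (norm_om_mul hp.up1), hG.relA_rot hp.um1 hp.up1,
      hG.relB_rot (norm_om_mul hp.um1) (norm_om_mul hp.up1), hG.relB_rot hp.um1 hp.up1, rot2_re,
      rot2_im, eI, eR, eB, Complex.re_ofReal_mul, Complex.im_ofReal_mul, L.Zim] at this
    convert this using 4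
    · rw [Loc.Zx]; linear_combination (h * L.Zy) * s3
    · rw [Loc.Zx]; ring
  exact ⟨k0, k1, k2, ⟨tlo, thi, r0, r1.trans_eq (by ring), r2.trans_eq (by ring)⟩, qlo, zb, d1, d2,
    b1, b2, b3⟩

lemma Reg.w {Tlo Thi ep Th x y wr : ℝ} (r : Reg Tlo Thi ep Th x y) (t0 : 0 < Tlo) (e0 : 0 ≤ ep)
    (h : 320 / 279 * ep ≤ (41 / 93 - wr) * Tlo) :
    wr * Th ≤ Th - 2 * y ∧ wr * Th ≤ Th + y + x ∧ wr * Th ≤ Th + y - x := by
  have k0 : 0 ≤ 41 / 93 - wr := nonneg_of_mul_nonneg_left (by linarith) t0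
  have wk := h.trans (mul_le_mul_of_nonneg_left r.lo k0)
  have r0 := abs_le.1 r.r0
  have r1 := abs_le.1 r.r1
  have r2 := abs_le.1 r.r2
  exact ⟨by linarith [r1.2, r2.1], by linarith [r0.1, r2.2], by linarith [r0.2, r1.1]⟩

lemma inTri {C x y T a b Ch : ℝ} (k0 : 0 ≤ C + b) (k1 : 0 ≤ C - b / 2 - a / 2)
    (k2 : 0 ≤ C - b / 2 + a / 2) (p0 : 0 < T - 2 * y) (p1 : 0 < T + y + x) (p2 : 0 < T + y - x)
    (hC0 : 0 < Ch) (hS : 3 * C * T - x * a - 3 * y * b ≤ Ch) :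
    InTri Ch (T - 2 * y) (T + y + x) (T + y - x) a b := by
  have T0 : 0 < T := by linarith
  obtain ⟨t, t0, ht⟩ : ∃ t, 0 ≤ t ∧ (C + b + t) * (T - 2 * y) +
      (C - b / 2 - a / 2 + t) * (T + y + x) + (C - b / 2 + a / 2 + t) * (T + y - x) = Ch :=
    ⟨(Ch - (3 * C * T - x * a - 3 * y * b)) / (3 * T), div_nonneg (by linarith) (by linarith),
      by field_simp; ring⟩
  refine ⟨(C + b + t) * (T - 2 * y) / Ch, (C - b / 2 - a / 2 + t) * (T + y + x) / Ch,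
    (C - b / 2 + a / 2 + t) * (T + y - x) / Ch,
    div_nonneg (mul_nonneg (by linarith) p0.le) hC0.le,
    div_nonneg (mul_nonneg (by linarith) p1.le) hC0.le,
    div_nonneg (mul_nonneg (by linarith) p2.le) hC0.le, ?_, ?_, ?_⟩
  · rw [← add_div, ← add_div, ht, div_self hC0.ne']
  · field_simp; ring
  · field_simp; ring

namespace Pre

variable {p : Par} {L : Loc} (H : Pre p L) (hp : p.OK L.h L.um L.u0 L.up)
include H

lemma be0 : 0 ≤ p.be := (norm_nonneg _).trans H.b1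

include hp

lemma th0 : 0 < L.Th := hp.tlo0.trans_le H.reg.lo

lemma q0 : 0 < L.q := hp.ql0.trans_le H.qlo

lemma s0 : 0 ≤ L.s := by
  have := mul_le_mul_of_nonneg_right (pow_le_one₀ (n := 2) hp.c0' hp.c1) (sq_nonneg L.Th)
  rw [Loc.s]; linarith [H.zb]

omit H hp in
lemma s1 (L : Loc) : L.s ≤ 3 * L.Th ^ 2 := by
  rw [Loc.s]; nlinarith [sq_nonneg L.Zx, sq_nonneg L.Zy]

lemma qhi : L.q ≤ 1 := by
  have e1 := (L.outer hp.h0.ne' hp.um1 hp.up1).2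
  have e2 := L.s_q hp.h0.ne' hp.um1 hp.up1
  have : 0 ≤ ‖L.sig‖ ^ 2 - ‖L.P‖ ^ 2 := nonneg_of_mul_nonneg_right (e2 ▸ H.s0 hp) (H.q0 hp)
  nlinarith [sq_nonneg L.h]

lemma w : p.wr * L.Th ≤ L.Th - 2 * L.Zy ∧ p.wr * L.Th ≤ L.Th + L.Zy + L.Zx ∧
    p.wr * L.Th ≤ L.Th + L.Zy - L.Zx :=
  H.reg.w hp.tlo0 (by nlinarith [hp.ep1, mul_nonneg hp.h0.le (sq_nonneg p.Thi)]) hp.wr1

lemma pb0 : 0 ≤ p.pbar := nonneg_of_mul_nonneg_right ((norm_nonneg _).trans H.d1) hp.h0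

lemma hP : ‖L.P‖ ≤ p.pbar := by
  have h0 := hp.h0
  have := norm_add_le (L.bp - L.b0) (L.b0 - L.bm)
  rw [sub_add_sub_cancel] at this
  rw [Loc.P, norm_div, norm_mul, Complex.norm_real, Real.norm_eq_abs, abs_of_pos h0,
    Complex.norm_two, div_le_iff₀ (by positivity)]
  linarith [H.d1, H.d2]

lemma hD0 : L.h * ‖L.D‖ ≤ 2 * p.pbar := by
  have h0 := hp.h0
  have := norm_sub_le (L.bp - L.b0) (L.b0 - L.bm)
  rw [show L.bp - L.b0 - (L.b0 - L.bm) = L.bp - 2 * L.b0 + L.bm by ring] at this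
  rw [Loc.D, norm_div, norm_pow, Complex.norm_real, Real.norm_eq_abs, abs_of_pos h0,
    ← mul_div_assoc, div_le_iff₀ (by positivity)]
  nlinarith [H.d1, H.d2]

lemma hM : ‖L.bM‖ ≤ p.be := by
  have e : L.bM = (L.bp + L.bm) / 2 := by
    linear_combination (-1 / 2) * L.bp_eq hp.h0.ne' - (1 / 2) * L.bm_eq hp.h0.ne'
  have := norm_add_le L.bp L.bm
  rw [e, norm_div, Complex.norm_two]
  linarith [H.b1, H.b3]

lemma hra : 1 ≤ L.ra ∧ L.ra ≤ p.rb := by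
  have e1 := L.rp hp.h0.ne'
  have e2 := L.rm hp.h0.ne'
  constructor <;> linarith [one_le_rho L.bp, one_le_rho L.bm, hp.rb1, rho_le H.b3, rho_le H.b1]

lemma hr1 : |L.r1| ≤ p.be * p.pbar := by
  have k : |L.r1 * L.ra| ≤ p.be * p.pbar := by
    rw [L.r1_eq hp.h0.ne']
    refine (Complex.abs_re_le_norm _).trans ?_
    rw [norm_mul, Complex.norm_conj]
    exact mul_le_mul (H.hM hp) (H.hP hp) (norm_nonneg _) H.be0
  have := (H.hra hp).1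
  rw [abs_mul, abs_of_pos (by linarith : 0 < L.ra)] at k
  nlinarith [abs_nonneg L.r1]

lemma hr2 : |L.r2| ≤ p.be * ‖L.D‖ + p.pbar ^ 2 := L.r2_le hp.h0 H.b2 H.d2 H.d1

lemma sum : 3 * L.Cy * L.Th - L.Zx * L.Wx - 3 * L.Zy * L.Wy ≤ L.C0 := by
  have ex := L.exact hp.h0.ne' hp.um1 hp.u01 hp.up1 (H.q0 hp).ne'
  have s0 := H.s0 hp
  have q0 := H.q0 hp
  have : 0 ≤ L.s * (L.h ^ 2 * ‖L.ze‖ ^ 2) / (4 * L.q) := by positivity
  linarith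

lemma iq : 1 / L.q ≤ 1 / p.ql L.h ∧ 1 / L.q ^ 2 ≤ 1 / p.ql L.h ^ 2 :=
  ⟨one_div_le_one_div_of_le hp.ql0 H.qlo,
    one_div_le_one_div_of_le (pow_pos hp.ql0 2) (pow_le_pow_left₀ hp.ql0.le H.qlo 2)⟩

/-- `‖W‖` is bounded by the size of the triangle over the smallest weight -/
lemma W_le {w : ℝ} (w0 : w ≤ L.Th - 2 * L.Zy) (w1 : w ≤ L.Th + L.Zy + L.Zx)
    (w2 : w ≤ L.Th + L.Zy - L.Zx) (hw : 0 ≤ w) : ‖L.W‖ * (1.732 * w) ≤ 2 * L.C0 := by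
  have n0 := mul_le_mul_of_nonneg_left w0 H.k0
  have n1 := mul_le_mul_of_nonneg_left w1 H.k1
  have n2 := mul_le_mul_of_nonneg_left w2 H.k2
  have sum := H.sum hp
  have cy0 : 0 ≤ L.Cy := by linarith [H.k0, H.k1, H.k2]
  have m5 : ‖L.W‖ ≤ 2 * √3 * L.Cy := by
    refine abs_le_of_sq_le_sq' ?_ (by positivity) |>.2
    rw [L.Wsq]
    refine (w_bound H.k0 H.k1 H.k2).trans_eq ?_
    linear_combination (-4 * L.Cy ^ 2) * s3
  have m6 : ‖L.W‖ * (1.732 * w) ≤ 2 * √3 * L.Cy * (√3 * w) :=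
    mul_le_mul m5 (mul_le_mul_of_nonneg_right s3_lo hw) (by positivity) (by positivity)
  have m7 : 2 * √3 * L.Cy * (√3 * w) = 2 * (3 * L.Cy * w) := by
    linear_combination 2 * L.Cy * w * s3
  linarith

omit H hp in
lemma red_le {T r m s : ℝ} (T0 : 0 < T) (r0 : 0 < r) (h1 : r * T ≤ m) (h2 : m ≤ T) (s0 : 0 ≤ s)
    (hs : s ≤ 3 * T ^ 2 - 3 * ((T - m) / 2) ^ 2) :
    s ^ 2 * r ≤ 9 * T ^ 3 * (1 - (1 - r) ^ 2 / 4) ^ 2 * m := by
  have m0 : 0 < m := (mul_pos r0 T0).trans_le h1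
  have r1 : r ≤ 1 := le_of_mul_le_mul_right (by linarith) T0
  have k1 : s ^ 2 ≤ (3 / 4 * ((3 * T - m) * (T + m))) ^ 2 :=
    pow_le_pow_left₀ s0 (by linarith) 2
  have k2 : (3 * T - m) ^ 2 ≤ ((3 - r) * T) ^ 2 := pow_le_pow_left₀ (by linarith) (by linarith) 2
  have k3 : (T + m) ^ 2 * r ≤ T * (1 + r) ^ 2 * m := by
    have := mul_nonneg (sub_nonneg.2 h1)
      (sub_nonneg.2 ((mul_le_of_le_one_left m0.le r1).trans h2))
    linarith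
  have k4 := mul_le_mul k2 k3 (by positivity) (by positivity)
  have k5 := mul_le_mul_of_nonneg_right k1 r0.le
  linarith

lemma wstep {d : ℝ} (hd : L.h * ‖L.D‖ ≤ d) : ‖L.W‖ ≤ p.wnext L.h d := by
  have h0 := hp.h0
  have th0 := H.th0 hp
  have thi := H.reg.hi
  have thi0 : 0 ≤ p.Thi := th0.le.trans thi
  have s0 := H.s0 hp
  have s1 := s1 L
  have q0 := H.q0 hp
  have ql0 := hp.ql0
  have wr0 := hp.wr0
  obtain ⟨w0, w1, w2⟩ := H.w hp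
  obtain ⟨m, a0, a1, a2, a3, a4⟩ : ∃ m, m ≤ L.Th - 2 * L.Zy ∧ m ≤ L.Th + L.Zy + L.Zx ∧
      m ≤ L.Th + L.Zy - L.Zx ∧ p.wr * L.Th ≤ m ∧ L.s ≤ 3 * L.Th ^ 2 - 3 * ((L.Th - m) / 2) ^ 2 := by
    have b0 : L.s ≤ 3 * L.Th ^ 2 - 3 * ((L.Th - (L.Th - 2 * L.Zy)) / 2) ^ 2 := by
      rw [Loc.s]; linarith [sq_nonneg L.Zx]
    have b1 : L.s ≤ 3 * L.Th ^ 2 - 3 * ((L.Th - (L.Th + L.Zy + L.Zx)) / 2) ^ 2 := by
      rw [Loc.s]; linarith [sq_nonneg (L.Zx - 3 * L.Zy)]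
    have b2 : L.s ≤ 3 * L.Th ^ 2 - 3 * ((L.Th - (L.Th + L.Zy - L.Zx)) / 2) ^ 2 := by
      rw [Loc.s]; linarith [sq_nonneg (L.Zx + 3 * L.Zy)]
    rcases le_total (L.Th - 2 * L.Zy) (L.Th + L.Zy + L.Zx) with c1 | c1
    · rcases le_total (L.Th - 2 * L.Zy) (L.Th + L.Zy - L.Zx) with c2 | c2
      · exact ⟨_, le_rfl, c1, c2, w0, b0⟩
      · exact ⟨_, c2, c2.trans c1, le_rfl, w2, b2⟩
    · rcases le_total (L.Th + L.Zy + L.Zx) (L.Th + L.Zy - L.Zx) with c2 | c2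
      · exact ⟨_, c1, le_rfl, c2, w1, b1⟩
      · exact ⟨_, c2.trans c1, c2, le_rfl, w2, b2⟩
  have mp : 0 < m := (mul_pos wr0 th0).trans_le a3
  have hd2 : L.h ^ 2 * ‖L.D‖ ^ 2 ≤ d ^ 2 := by
    rw [← mul_pow]; exact pow_le_pow_left₀ (by positivity) hd 2
  have m0 : L.s ≤ 3 * p.Thi * L.Th := by nlinarith
  have m1 : L.s ^ 2 * p.wr ≤ 9 * p.Thi ^ 3 * (1 - (1 - p.wr) ^ 2 / 4) ^ 2 * m :=
    (red_le th0 wr0 a3 (by linarith) s0 a4).trans (by gcongr)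
  have m2 : L.s ^ 2 / L.q ^ 2 * p.wr ≤
      9 * p.Thi ^ 3 * (1 - (1 - p.wr) ^ 2 / 4) ^ 2 / p.ql L.h ^ 2 * m := by
    have := mul_le_mul m1 (H.iq hp).2 (by positivity) (by positivity)
    calc _ = L.s ^ 2 * p.wr * (1 / L.q ^ 2) := by ring
      _ ≤ _ := this
      _ = _ := by ring
  have m3 : L.s * (L.h ^ 2 * ‖L.D‖ ^ 2) / (4 * L.q) ≤
      3 * p.Thi * d ^ 2 / (4 * p.ql L.h) * L.Th := by
    have := mul_le_mul (mul_le_mul m0 hd2 (by positivity) (by positivity)) (H.iq hp).1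
      (by positivity) (by positivity)
    calc _ = L.s * (L.h ^ 2 * ‖L.D‖ ^ 2) * (1 / L.q) / 4 := by field_simp
      _ ≤ 3 * p.Thi * L.Th * d ^ 2 * (1 / p.ql L.h) / 4 := by linarith
      _ = _ := by field_simp
  have m4 := mul_le_mul_of_nonneg_right (H.W_le hp a0 a1 a2 mp.le) wr0.le
  have m5 := mul_le_mul_of_nonneg_right m3 wr0.le
  have m6 := mul_le_mul_of_nonneg_left a3
    (show 0 ≤ 3 * p.Thi * d ^ 2 / (4 * p.ql L.h) by positivity)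
  rw [Par.wnext, le_div_iff₀ (by positivity)]
  rw [Loc.C0] at m4
  exact le_of_mul_le_mul_right (by linarith) mp

omit H in
lemma u_le : p.n1 ≤ ‖L.U1‖ ∧ ‖L.U1‖ ≤ p.n1' ∧ ‖L.U2‖ ≤ p.n2 ∧ ‖L.Ua‖ ≤ 1 := by
  have h0 := hp.h0
  have nU : ‖L.U1‖ * (2 * L.h) = ‖L.up - L.um‖ := by
    rw [Loc.U1, norm_div, norm_mul, Complex.norm_real, Real.norm_eq_abs, abs_of_pos h0,
      Complex.norm_two, div_mul_cancel₀ _ (by positivity)]
  refine ⟨?_, ?_, ?_, ?_⟩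
  · have := (abs_le_of_sq_le_sq' hp.n1lo (norm_nonneg _)).2
    exact le_of_mul_le_mul_right (a := 2 * L.h) (by linarith) (by linarith)
  · have := (abs_le_of_sq_le_sq' hp.n1hi (by have := hp.n1hi0; positivity)).2
    exact le_of_mul_le_mul_right (a := 2 * L.h) (by linarith) (by linarith)
  · have := (abs_le_of_sq_le_sq' hp.n2hi (by have := hp.n20; positivity)).2
    rw [Loc.U2, norm_div, norm_pow, Complex.norm_real, Real.norm_eq_abs, abs_of_pos h0,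
      div_le_iff₀ (by positivity)]
    linarith
  · have := norm_add_le L.up L.um
    rw [hp.um1, hp.up1] at this
    rw [Loc.Ua, norm_div, Complex.norm_two]
    linarith

/-- `‖D‖` is bounded by `‖W‖` -/
lemma D_le : ‖L.D‖ * (p.n1 - p.be * p.pbar) ≤
    ‖L.W‖ + p.pbar * (p.rb * p.n2 + p.pbar ^ 2 + 2 * p.be * p.pbar * p.n1') := by
  obtain ⟨u1lo, u1hi, u2hi, uahi⟩ := u_le hp
  have hze : ‖L.ze‖ ≤ p.rb * p.n2 + (p.be * ‖L.D‖ + p.pbar ^ 2) + 2 * (p.be * p.pbar) * p.n1' := by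
    have m0 : L.r0 ≤ p.rb := (rho_le H.b2).trans hp.rb1
    have m0' : 1 ≤ L.r0 := one_le_rho _
    have m1 := H.hr1 hp
    rw [Loc.ze]
    refine norm_add₃_le.trans (add_le_add (add_le_add ?_ ?_) ?_)
    · rw [norm_mul, Complex.norm_real, Real.norm_eq_abs, abs_of_pos (by linarith)]
      exact mul_le_mul m0 u2hi (norm_nonneg _) (by linarith)
    · rw [norm_mul, Complex.norm_real, Real.norm_eq_abs]
      exact (mul_le_of_le_one_right (abs_nonneg _) uahi).trans (H.hr2 hp)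
    · rw [norm_mul, norm_mul, Complex.norm_real, Real.norm_eq_abs, Complex.norm_two]
      exact mul_le_mul (by linarith) u1hi (norm_nonneg _) (by linarith [abs_nonneg L.r1])
  have m2 : ‖conj L.sig * L.D‖ ≤ ‖L.W‖ + ‖conj L.ze * L.P‖ := by
    rw [show conj L.sig * L.D = L.W + conj L.ze * L.P by rw [Loc.W]; ring]
    exact norm_add_le _ _
  rw [norm_mul, norm_mul, Complex.norm_conj, Complex.norm_conj] at m2
  have m3 := mul_le_mul_of_nonneg_right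
    (u1lo.trans (L.sig_ge hp.h0.ne' hp.um1 hp.up1 (H.hra hp).1)) (norm_nonneg L.D)
  have m4 := mul_le_mul hze (H.hP hp) (norm_nonneg _) ((norm_nonneg _).trans hze)
  linarith

lemma dstep {d : ℝ} (hd : L.h * ‖L.D‖ ≤ d) : ‖L.D‖ ≤ p.dnext L.h d := by
  rw [Par.dnext, le_div_iff₀ (by linarith [hp.den])]
  linarith [H.wstep hp hd, H.D_le hp]

lemma hD : ‖L.D‖ ≤ p.Dbar :=
  (H.dstep hp (mul_le_mul_of_nonneg_left ((H.dstep hp (H.hD0 hp)).trans hp.d1) hp.h0.le)).trans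
    hp.d2

/-- the size of the triangle in terms of a bound for `‖D‖ ^ 2` -/
lemma C0_le {d : ℝ} (hd : ‖L.D‖ ^ 2 ≤ d) : L.C0 ≤ L.s ^ 2 +
    9 * p.Thi ^ 4 * (1 / p.ql L.h ^ 2 - 1) + 3 * p.Thi ^ 2 * L.h ^ 2 / (4 * p.ql L.h) * d := by
  have th0 := H.th0 hp
  have s0 := H.s0 hp
  have q0 := H.q0 hp
  have ql0 := hp.ql0
  have qhi := H.qhi hp
  have d0 : 0 ≤ d := (sq_nonneg _).trans hd
  have m0 : L.s ≤ 3 * p.Thi ^ 2 := by linarith [s1 L, pow_le_pow_left₀ th0.le H.reg.hi 2]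
  have m1 : L.s ^ 2 ≤ 9 * p.Thi ^ 4 := (pow_le_pow_left₀ s0 m0 2).trans_eq (by ring)
  have m2 : 0 ≤ 1 / L.q ^ 2 - 1 := by
    rw [sub_nonneg, le_div_iff₀ (by positivity)]; nlinarith
  have m3 := mul_le_mul m1 (sub_le_sub_right (H.iq hp).2 1) m2 (by positivity)
  have m4 := mul_le_mul (mul_le_mul m0 (mul_le_mul_of_nonneg_left hd (sq_nonneg L.h))
    (by positivity) (by positivity)) (H.iq hp).1 (by positivity) (by positivity)
  have e1 : L.C0 = L.s ^ 2 + L.s ^ 2 * (1 / L.q ^ 2 - 1) +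
      L.s * (L.h ^ 2 * ‖L.D‖ ^ 2) * (1 / L.q) / 4 := by
    rw [Loc.C0]; field_simp; ring
  have e2 : 3 * p.Thi ^ 2 * L.h ^ 2 / (4 * p.ql L.h) * d =
      3 * p.Thi ^ 2 * (L.h ^ 2 * d) * (1 / p.ql L.h) / 4 := by field_simp
  linarith

theorem out : Out p L := by
  obtain ⟨w0, w1, w2⟩ := H.w hp
  have wt : 0 < p.wr * L.Th := mul_pos hp.wr0 (H.th0 hp)
  have hD := H.hD hp
  refine ⟨H.reg, H.zb, w0, w1, w2, wt, H.s0 hp, H.qlo, H.qhi hp, H.hP hp, hD,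
    (H.wstep hp (mul_le_mul_of_nonneg_left hD hp.h0.le)).trans hp.wb, H.hM hp, H.hr1 hp,
    (H.hr2 hp).trans (by linarith [mul_le_mul_of_nonneg_left hD H.be0]), H.hra hp, ?_,
    fun Ch hC hC0 => inTri H.k0 H.k1 H.k2 (wt.trans_le w0) (wt.trans_le w1) (wt.trans_le w2) hC0
      ((H.sum hp).trans hC)⟩
  have k := H.C0_le hp (pow_le_pow_left₀ (norm_nonneg _) hD 2)
  have k' := hp.cc
  rw [show 3 * p.Thi ^ 2 * (L.h * p.Dbar) ^ 2 / (4 * p.ql L.h) =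
    3 * p.Thi ^ 2 * L.h ^ 2 / (4 * p.ql L.h) * p.Dbar ^ 2 by ring] at k'
  linarith

end Pre

theorem loc {A η : ℝ} {b : ℂ → ℂ} (hG : Geo A η b) {p : Par} {h : ℝ} {um u0 up : ℂ}
    (hp : p.OK h um u0 up) (b1 : ‖b um‖ ≤ p.be) (b2 : ‖b u0‖ ≤ p.be) (b3 : ‖b up‖ ≤ p.be)
    (a1 : Ap2 b p.be p.rb p.c um u0) (a2 : Ap2 b p.be p.rb p.c u0 up)
    (a3 : Ap2 b p.be p.rb p.c um up) : Out p (Loc.of b h um u0 up) :=
  (pre hG hp b1 b2 b3 a1 a2 a3).out hp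

/-- a convex quadratic that is at most `R` at the vertices is at most `R` in the triangle -/
theorem InTri.cut {Ch w0 w1 w2 x y : ℝ} (h : InTri Ch w0 w1 w2 x y) (p0 : 0 < w0) (p1 : 0 < w1)
    (p2 : 0 < w2) {q0 q1 q2 q11 q12 q22 R : ℝ} (h11 : 0 ≤ q11) (h22 : 0 ≤ q22)
    (h12 : q12 ^ 2 ≤ q11 * q22)
    (v0 : (q0 - R) * w0 ^ 2 + Ch * w0 * (2 / 3 * q2) + Ch ^ 2 * (4 / 9 * q22) ≤ 0)
    (v1 : (q0 - R) * w1 ^ 2 + Ch * w1 * (-q1 - q2 / 3) +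
      Ch ^ 2 * (q11 + 2 / 3 * q12 + q22 / 9) ≤ 0)
    (v2 : (q0 - R) * w2 ^ 2 + Ch * w2 * (q1 - q2 / 3) +
      Ch ^ 2 * (q11 - 2 / 3 * q12 + q22 / 9) ≤ 0) :
    q0 + q1 * x + q2 * y + q11 * x ^ 2 + 2 * q12 * x * y + q22 * y ^ 2 ≤ R := by
  obtain ⟨l0, l1, l2, n0, n1, n2, hs, rfl, rfl⟩ := h
  have psd : ∀ a b : ℝ, 0 ≤ q11 * a ^ 2 + 2 * q12 * a * b + q22 * b ^ 2 := by
    intro a b
    rcases h11.eq_or_lt with e | e
    · have : q12 = 0 := by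
        rw [← e, zero_mul] at h12
        exact pow_eq_zero_iff two_ne_zero |>.1 (le_antisymm h12 (sq_nonneg _))
      rw [← e, this]; nlinarith [mul_nonneg h22 (sq_nonneg b)]
    · refine nonneg_of_mul_nonneg_right ?_ e
      nlinarith [sq_nonneg (q11 * a + q12 * b), mul_nonneg (sub_nonneg.2 h12) (sq_nonneg b)]
  obtain ⟨a0, e0⟩ : ∃ a, Ch = a * w0 := ⟨Ch / w0, by field_simp⟩
  obtain ⟨a1, e1⟩ : ∃ a, Ch = a * w1 := ⟨Ch / w1, by field_simp⟩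
  obtain ⟨a2, e2⟩ : ∃ a, Ch = a * w2 := ⟨Ch / w2, by field_simp⟩
  have f0 : Ch / w0 = a0 := by rw [e0]; field_simp
  have f1 : Ch / w1 = a1 := by rw [e1]; field_simp
  have f2 : Ch / w2 = a2 := by rw [e2]; field_simp
  rw [f0, f1, f2]
  have u0 : q0 - R + a0 * (2 / 3 * q2) + a0 ^ 2 * (4 / 9 * q22) ≤ 0 :=
    nonpos_of_mul_nonpos_left (a := _) (b := w0 ^ 2) (by rw [e0] at v0; linarith) (by positivity)
  have u1 : q0 - R + a1 * (-q1 - q2 / 3) + a1 ^ 2 * (q11 + 2 / 3 * q12 + q22 / 9) ≤ 0 :=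
    nonpos_of_mul_nonpos_left (a := _) (b := w1 ^ 2) (by rw [e1] at v1; linarith) (by positivity)
  have u2 : q0 - R + a2 * (q1 - q2 / 3) + a2 ^ 2 * (q11 - 2 / 3 * q12 + q22 / 9) ≤ 0 :=
    nonpos_of_mul_nonpos_left (a := _) (b := w2 ^ 2) (by rw [e2] at v2; linarith) (by positivity)
  have m0 := mul_nonneg n0 (neg_nonneg.2 u0)
  have m1 := mul_nonneg n1 (neg_nonneg.2 u1)
  have m2 := mul_nonneg n2 (neg_nonneg.2 u2)
  have j01 := mul_nonneg (mul_nonneg n0 n1) (psd a1 (2 / 3 * a0 + 1 / 3 * a1))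
  have j02 := mul_nonneg (mul_nonneg n0 n2) (psd (-a2) (2 / 3 * a0 + 1 / 3 * a2))
  have j12 := mul_nonneg (mul_nonneg n1 n2) (psd (-a1 - a2) (-(1 / 3) * a1 + 1 / 3 * a2))
  obtain rfl : l0 = 1 - l1 - l2 := by linarith
  linarith

/-- a quadratic majorant of the square of the speed form about a reference point -/
theorem sq_major {t x y tr xr yr Thi zb t1 aT aZ : ℝ} (ht0 : 0 ≤ t) (ht : t ≤ Thi) (htr : 0 ≤ tr)
    (hz : x ^ 2 + 3 * y ^ 2 ≤ zb ^ 2) (hzr : xr ^ 2 + 3 * yr ^ 2 ≤ zb ^ 2) (h1 : 0 < t1)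
    (hT : (1 + t1) * 9 * (Thi + tr) ^ 2 ≤ aT) (hZ : (1 + 1 / t1) * 4 * zb ^ 2 ≤ aZ) :
    (3 * t ^ 2 - x ^ 2 - 3 * y ^ 2) ^ 2 ≤ (3 * tr ^ 2 - xr ^ 2 - 3 * yr ^ 2) ^ 2 +
      2 * (3 * tr ^ 2 - xr ^ 2 - 3 * yr ^ 2) * ((3 * t ^ 2 - x ^ 2 - 3 * y ^ 2) -
        (3 * tr ^ 2 - xr ^ 2 - 3 * yr ^ 2)) + aT * (t - tr) ^ 2 +
      aZ * ((x - xr) ^ 2 + 3 * (y - yr) ^ 2) := by
  have k1 : (3 * (t + tr) * (t - tr)) ^ 2 ≤ 9 * (Thi + tr) ^ 2 * (t - tr) ^ 2 := by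
    have := mul_le_mul_of_nonneg_right (pow_le_pow_left₀ (by linarith) (add_le_add_left ht tr) 2)
      (sq_nonneg (t - tr))
    nlinarith
  have k2 : ((x + xr) * (x - xr) + 3 * (y + yr) * (y - yr)) ^ 2 ≤
      4 * zb ^ 2 * ((x - xr) ^ 2 + 3 * (y - yr) ^ 2) := by
    have m1 : (x + xr) ^ 2 + 3 * (y + yr) ^ 2 ≤ 4 * zb ^ 2 := by
      nlinarith [sq_nonneg (x - xr), sq_nonneg (y - yr)]
    have m2 := mul_le_mul_of_nonneg_right m1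
      (show 0 ≤ (x - xr) ^ 2 + 3 * (y - yr) ^ 2 by positivity)
    nlinarith [sq_nonneg ((x + xr) * (y - yr) - (y + yr) * (x - xr))]
  have k3 : ∀ a b : ℝ, (a - b) ^ 2 ≤ (1 + t1) * a ^ 2 + (1 + 1 / t1) * b ^ 2 := fun a b => by
    have : 0 ≤ (t1 * a + b) ^ 2 / t1 := by positivity
    have e : (t1 * a + b) ^ 2 / t1 = t1 * a ^ 2 + 2 * a * b + 1 / t1 * b ^ 2 := by
      field_simp; ring
    nlinarith
  have k4 := k3 (3 * (t + tr) * (t - tr)) ((x + xr) * (x - xr) + 3 * (y + yr) * (y - yr))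
  have k5 := mul_le_mul_of_nonneg_left k1 (show 0 ≤ 1 + t1 by positivity)
  have k6 := mul_le_mul_of_nonneg_left k2 (show 0 ≤ 1 + 1 / t1 by positivity)
  have k7 := mul_le_mul_of_nonneg_right hT (sq_nonneg (t - tr))
  have k8 := mul_le_mul_of_nonneg_right hZ
    (show 0 ≤ (x - xr) ^ 2 + 3 * (y - yr) ^ 2 by positivity)
  nlinarith

end Pool.Agent.Lib.MP_fb520c_co.Dent
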