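import Pool.Agent.Lib.MP_fb520c_co.Dent.LocDefs

/-! The exact identities for three consecutive samples. -/

set_option autoImplicit false

open Complex ComplexConjugate

noncomputable section

namespace Pool.Agent.Lib.MP_fb520c_co.Dent

lemma nsq (z : ℂ) : ‖z‖ ^ 2 = z.re ^ 2 + z.im ^ 2 := by
  rw [Complex.sq_norm, Complex.normSq_apply]; ring

lemma rho_sq (b : ℂ) : rho b ^ 2 = 1 + ‖b‖ ^ 2 := Real.sq_sqrt (by positivity)

lemma one_le_rho (b : ℂ) : 1 ≤ rho b := Real.one_le_sqrt.2 (by nlinarith [sq_nonneg ‖b‖])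

lemma rho_le {b : ℂ} {be : ℝ} (h : ‖b‖ ≤ be) : rho b ≤ 1 + be ^ 2 / 2 := by
  have k := pow_le_pow_left₀ (norm_nonneg _) h 2
  refine Real.sqrt_le_iff.2 ⟨by positivity, by nlinarith [sq_nonneg (be ^ 2)]⟩

lemma rho_lip (x y : ℂ) : (rho x - rho y) ^ 2 ≤ ‖x - y‖ ^ 2 := by
  have h1 : 1 + ‖x‖ * ‖y‖ ≤ rho x * rho y := by
    refine abs_le_of_sq_le_sq' ?_ (mul_nonneg (by linarith [one_le_rho x])
      (by linarith [one_le_rho y])) |>.2
    rw [mul_pow, rho_sq, rho_sq]
    nlinarith [sq_nonneg (‖x‖ - ‖y‖)]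
  have h2 : (‖x‖ - ‖y‖) ^ 2 ≤ ‖x - y‖ ^ 2 := by
    rw [← sq_abs (‖x‖ - ‖y‖)]
    exact pow_le_pow_left₀ (abs_nonneg _) (abs_norm_sub_norm_le x y) 2
  nlinarith [rho_sq x, rho_sq y]

lemma s3 : √3 * √3 = 3 := Real.mul_self_sqrt (by norm_num)

lemma s3_pos : (0 : ℝ) < √3 := by positivity

lemma s3_lo : (1.732 : ℝ) ≤ √3 := Real.le_sqrt_of_sq_le (by norm_num)

@[simp] lemma om_re : om.re = 1 / 2 := rfl
@[simp] lemma om_im : om.im = √3 / 2 := rfl

lemma norm_om : ‖om‖ = 1 := by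
  have : ‖om‖ ^ 2 = 1 := by rw [nsq, om_re, om_im]; linear_combination (1 / 4) * s3
  nlinarith [norm_nonneg om]

lemma om_conj : om * conj om = 1 := by
  apply Complex.ext <;> simp
  · linear_combination (1 / 4) * s3
  · ring

lemma norm_om_mul {u : ℂ} (hu : ‖u‖ = 1) : ‖om * u‖ = 1 := by rw [norm_mul, norm_om, hu, one_mul]

section Rot

variable {A η : ℝ} {b : ℂ → ℂ} (hG : Geo A η b) {u v : ℂ} (hu : ‖u‖ = 1) (hv : ‖v‖ = 1)
include hG hu

lemma Geo.rho_rot : rho (b (om * u)) = rho (b u) := by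
  rw [hG.rot u hu, rho, rho, norm_mul, Complex.norm_conj, norm_om, one_mul]

lemma Geo.pnt_rot : pnt b (om * u) = om * (rho (b u) * u) + conj om * b u := by
  rw [pnt, hG.rho_rot hu, hG.rot u hu]; ring

lemma Geo.pnt_rot2 :
    pnt b (om * (om * u)) = om * (om * (rho (b u) * u)) + conj om * (conj om * b u) := by
  rw [hG.pnt_rot (norm_om_mul hu), hG.rho_rot hu, hG.rot u hu]; ring

include hv

lemma Geo.relA_rot : relA b (om * u) (om * v) = relA b u v := by
  rw [relA, relA, hG.rho_rot hu, hG.rho_rot hv, hG.rot u hu, hG.rot v hv]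
  simp only [map_mul, Complex.conj_conj]
  linear_combination (rho (b u) * rho (b v) * (conj u * v) - b u * conj (b v)) * om_conj

lemma Geo.relB_rot : relB b (om * u) (om * v) = conj om * conj om * relB b u v := by
  rw [relB, relB, hG.rho_rot hu, hG.rho_rot hv, hG.rot u hu, hG.rot v hv]
  simp only [map_mul]
  ring

/-- the two-sided form of the slope condition -/
lemma Geo.slope2 : √3 * |(relB b u v).re| ≤
    √3 * (1 - (relA b u v).re) + 39 / 80 * |(relA b u v).im + (relB b u v).im| := by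
  have k1 := hG.slope u v hu hv
  have k2 := hG.slope v u hv hu
  have e1 : relA b v u = conj (relA b u v) := by
    simp only [relA, map_mul, map_sub, Complex.conj_conj, Complex.conj_ofReal]; ring
  have e2 : relB b v u = -relB b u v := by
    simp only [relB]; ring
  rw [e1, e2] at k2
  simp only [Complex.add_re, Complex.add_im, Complex.conj_re, Complex.conj_im, Complex.neg_re,
    Complex.neg_im] at k1 k2
  rw [← neg_add, abs_neg] at k2
  rcases abs_cases (relB b u v).re with ⟨h, -⟩ | ⟨h, -⟩ <;> rw [h] <;> linarith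

end Rot

namespace Loc

variable (L : Loc) (h0 : L.h ≠ 0)
include h0

lemma hC : (L.h : ℂ) ≠ 0 := Complex.ofReal_ne_zero.2 h0

lemma rp : rho L.bp = L.ra + L.h * L.r1 := by
  simp only [ra, r0, r1, r2]; field_simp; ring

lemma rm : rho L.bm = L.ra - L.h * L.r1 := by
  simp only [ra, r0, r1, r2]; field_simp; ring

lemma up_eq : L.up = L.Ua + L.h * L.U1 := by
  have := L.hC h0
  simp only [Ua, U1]; field_simp; ring

lemma um_eq : L.um = L.Ua - L.h * L.U1 := by
  have := L.hC h0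
  simp only [Ua, U1]; field_simp; ring

lemma u0_eq : L.u0 = L.Ua - L.h ^ 2 * L.U2 / 2 := by
  have := L.hC h0
  simp only [Ua, U2]; field_simp; ring

lemma bp_eq : L.bp = L.bM + L.h * L.P := by
  have := L.hC h0
  simp only [bM, D, P]; field_simp; ring

lemma bm_eq : L.bm = L.bM - L.h * L.P := by
  have := L.hC h0
  simp only [bM, D, P]; field_simp; ring

omit h0 in
lemma b0_eq : L.b0 = L.bM - L.h ^ 2 * L.D / 2 := by
  simp only [bM]; ring

lemma ap_eq : rho L.bp * L.up = L.aM + L.h * L.sig := by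
  rw [L.rp h0, aM, sig]
  conv_lhs => rw [L.up_eq h0]
  push_cast; ring

lemma am_eq : rho L.bm * L.um = L.aM - L.h * L.sig := by
  rw [L.rm h0, aM, sig]
  conv_lhs => rw [L.um_eq h0]
  push_cast; ring

lemma a0_eq : rho L.b0 * L.u0 = L.aM - L.h ^ 2 * L.ze / 2 := by
  rw [aM, ze, ra]
  conv_lhs => rw [L.u0_eq h0]
  rw [r0]
  push_cast; ring

theorem r1_eq : L.r1 * L.ra = (conj L.bM * L.P).re := by
  have k1 := rho_sq L.bp
  have k2 := rho_sq L.bm
  rw [L.rp h0, nsq] at k1
  rw [L.rm h0, nsq] at k2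
  have e1 := L.bp_eq h0
  have e2 := L.bm_eq h0
  generalize L.bM = m at *
  rw [e1] at k1
  rw [e2] at k2
  simp only [Complex.add_re, Complex.add_im, Complex.sub_re, Complex.sub_im, Complex.mul_re,
    Complex.mul_im, Complex.ofReal_re, Complex.ofReal_im, Complex.conj_re, Complex.conj_im] at *
  refine mul_left_cancel₀ h0 ?_
  linear_combination (1 / 4) * k1 - (1 / 4) * k2

theorem r2_eq : L.r0 * L.r2 =
    (conj L.b0 * L.D).re + ‖L.P‖ ^ 2 - L.r1 ^ 2 + L.h ^ 2 * (‖L.D‖ ^ 2 - L.r2 ^ 2) / 4 := by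
  have k1 := rho_sq L.bp
  have k2 := rho_sq L.bm
  have k3 : L.r0 ^ 2 = 1 + ‖L.b0‖ ^ 2 := rho_sq L.b0
  rw [L.rp h0, L.bp_eq h0, ra, bM, nsq] at k1
  rw [L.rm h0, L.bm_eq h0, ra, bM, nsq] at k2
  rw [nsq] at k3
  rw [nsq, nsq]
  have e : ((L.h : ℂ) ^ 2 * L.D / 2) = ((L.h ^ 2 / 2 : ℝ) : ℂ) * L.D := by push_cast; ring
  rw [e] at k1 k2
  simp only [Complex.add_re, Complex.add_im, Complex.sub_re, Complex.sub_im, Complex.mul_re,
    Complex.mul_im, Complex.ofReal_re, Complex.ofReal_im, Complex.conj_re, Complex.conj_im] at *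
  refine mul_left_cancel₀ (pow_ne_zero 2 h0) ?_
  linear_combination (1 / 2) * k1 + (1 / 2) * k2 - k3

end Loc

/-- the product rule for determinants -/
lemma det_mul (a b c d : ℂ) : (conj a * c - b * conj d).re ^ 2 + (conj a * c - b * conj d).im ^ 2 -
    ‖conj a * d - b * conj c‖ ^ 2 = (‖a‖ ^ 2 - ‖b‖ ^ 2) * (‖c‖ ^ 2 - ‖d‖ ^ 2) := by
  simp only [nsq, Complex.sub_re, Complex.sub_im, Complex.mul_re, Complex.mul_im, Complex.conj_re,
    Complex.conj_im]
  ring

/-- the basic identity of the local cut -/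
lemma key_id (a b c d e f : ℂ) (h : (conj a * c - b * conj d).re = 0) :
    (‖a‖ ^ 2 - ‖b‖ ^ 2) * ((cr c e + cr d f) * (conj a * c - b * conj d).im -
      (conj (conj a * d - b * conj c) * (conj c * f - conj e * d)).re) =
    -((conj a * c - b * conj d).im ^ 2 - ‖conj a * d - b * conj c‖ ^ 2) *
      (conj a * e - b * conj f).re := by
  have e : (‖a‖ ^ 2 - ‖b‖ ^ 2) * ((cr c e + cr d f) * (conj a * c - b * conj d).im -
      (conj (conj a * d - b * conj c) * (conj c * f - conj e * d)).re) =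
    -((conj a * c - b * conj d).im ^ 2 - ‖conj a * d - b * conj c‖ ^ 2) *
      (conj a * e - b * conj f).re + (conj a * c - b * conj d).re *
        ((conj a * c - b * conj d).im * (conj a * e - b * conj f).im -
          (conj (conj a * d - b * conj c) * (conj a * f - b * conj e)).re) := by
    simp only [nsq, cr, Complex.sub_re, Complex.sub_im, Complex.mul_re, Complex.mul_im,
      Complex.conj_re, Complex.conj_im]
    ring
  rw [e, h]; ring

end Pool.Agent.Lib.MP_fb520c_co.Dent
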