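import Pool.Agent.Lib.MP_fb520c_co.Dent.Defs

/-! Three consecutive samples of the curve of critical hexagons: definitions. -/

set_option autoImplicit false

open Complex ComplexConjugate

noncomputable section

namespace Pool.Agent.Lib.MP_fb520c_co.Dent

/-- the a priori bounds for two close directions -/
structure Ap2 (b : ℂ → ℂ) (be rb c : ℝ) (u v : ℂ) : Prop where
  pos : 0 < (relA b u v).im
  up : (relA b u v).im * (1 - be * c) ≤ rb * cr u v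
  lo : cr u v ≤ (relA b u v).im * (rb + be * c)
  re : 1 - (relA b u v).re ≤ (relA b u v).im ^ 2 / 1.9
  bb : ‖relB b u v‖ ≤ c * (relA b u v).im
  db : ‖b v - b u‖ ≤ (relA b u v).im * (rb * c + be * (1 + (relA b u v).im))
  crp : ∀ j : ℕ, 0 < cr (pnt b (om ^ j * u)) (pnt b (om ^ j * v))

/-- a scale, three directions and the three values of `b` -/
structure Loc where
  h : ℝ
  um : ℂ
  u0 : ℂ
  up : ℂ
  bm : ℂ
  b0 : ℂ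
  bp : ℂ

namespace Loc

/-- the samples of a function `b` -/
def of (b : ℂ → ℂ) (h : ℝ) (um u0 up : ℂ) : Loc := ⟨h, um, u0, up, b um, b u0, b up⟩

variable (L : Loc)

/-- first difference of `b` -/
def P : ℂ := (L.bp - L.bm) / (2 * L.h)
/-- second difference of `b` -/
def D : ℂ := (L.bp - 2 * L.b0 + L.bm) / L.h ^ 2
/-- first difference of the directions -/
def U1 : ℂ := (L.up - L.um) / (2 * L.h)
/-- second difference of the directions -/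
def U2 : ℂ := (L.up - 2 * L.u0 + L.um) / L.h ^ 2
/-- mean of the outer directions -/
def Ua : ℂ := (L.up + L.um) / 2
/-- the middle modulus -/
def r0 : ℝ := rho L.b0
/-- first difference of the moduli -/
def r1 : ℝ := (rho L.bp - rho L.bm) / (2 * L.h)
/-- second difference of the moduli -/
def r2 : ℝ := (rho L.bp - 2 * rho L.b0 + rho L.bm) / L.h ^ 2
/-- mean of the outer moduli -/
def ra : ℝ := L.r0 + L.h ^ 2 * L.r2 / 2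
/-- first difference of the conformal parts -/
def sig : ℂ := L.ra * L.U1 + L.r1 * L.Ua
/-- second difference of the conformal parts -/
def ze : ℂ := L.r0 * L.U2 + L.r2 * L.Ua + 2 * L.r1 * L.U1
/-- mean of the outer conformal parts -/
def aM : ℂ := L.ra * L.Ua + L.h ^ 2 * L.r1 * L.U1
/-- mean of the outer anticonformal parts -/
def bM : ℂ := L.b0 + L.h ^ 2 * L.D / 2
/-- scaled anticonformal velocity -/
def Z : ℂ := conj L.aM * L.P - L.bM * conj L.sig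
/-- scaled rotation speed -/
def T : ℝ := (conj L.aM * L.sig - L.bM * conj L.P).im
/-- scaled control -/
def W : ℂ := conj L.sig * L.D - conj L.ze * L.P
/-- coordinates in which all data are rational: a number is `x + y √(-3)` -/
def Th : ℝ := L.T / √3
/-- first coordinate of `Z` -/
def Zx : ℝ := L.Z.re
/-- second coordinate of `Z` -/
def Zy : ℝ := L.Z.im / √3
/-- first coordinate of `W` -/
def Wx : ℝ := L.W.re
/-- second coordinate of `W` -/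
def Wy : ℝ := L.W.im / √3
/-- determinant of the mean of the outer hexagons -/
def q : ℝ := ‖L.aM‖ ^ 2 - ‖L.bM‖ ^ 2
/-- the speed form -/
def s : ℝ := 3 * L.Th ^ 2 - L.Zx ^ 2 - 3 * L.Zy ^ 2
/-- the size of the control triangle -/
def C0 : ℝ := L.s ^ 2 / L.q ^ 2 + L.s * (L.h ^ 2 * ‖L.D‖ ^ 2) / (4 * L.q)

end Loc

/-- the region of the velocities -/
structure Reg (Tlo Thi ep Th Zx Zy : ℝ) : Prop where
  lo : Tlo ≤ Th
  hi : Th ≤ Thi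
  r0 : |Zx| ≤ 39 / 80 * (Th + Zy) + ep
  r1 : |-Zx / 2 + 3 * Zy / 2| ≤ 39 / 80 * (Th - Zy / 2 - Zx / 2) + ep
  r2 : |-Zx / 2 - 3 * Zy / 2| ≤ 39 / 80 * (Th - Zy / 2 + Zx / 2) + ep

/-- the numerical parameters of one cell -/
structure Par where
  be : ℝ
  rb : ℝ
  c : ℝ
  ib : ℝ
  pbar : ℝ
  Tlo : ℝ
  Thi : ℝ
  ep : ℝ
  wr : ℝ
  n1 : ℝ
  n1' : ℝ
  n2 : ℝ
  D1 : ℝ
  Dbar : ℝ
  Wbar : ℝ
  c0 : ℝ

namespace Par

variable (p : Par) (h : ℝ)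

/-- lower bound of `q` -/
def ql : ℝ := 1 - h * p.ep

/-- bound of `‖W‖` when `h ‖D‖ ≤ d` -/
def wnext (d : ℝ) : ℝ :=
  2 * (9 * p.Thi ^ 3 * (1 - (1 - p.wr) ^ 2 / 4) ^ 2 / p.ql h ^ 2 +
    3 * p.Thi * d ^ 2 / (4 * p.ql h)) / (1.732 * p.wr)

/-- bound of `‖D‖` when `h ‖D‖ ≤ d` -/
def dnext (d : ℝ) : ℝ :=
  (p.wnext h d + p.pbar * (p.rb * p.n2 + p.pbar ^ 2 + 2 * p.be * p.pbar * p.n1')) /
    (p.n1 - p.be * p.pbar)

/-- the side conditions; for directions `x + y √(-3)` with rational `x, y` the determinant `cr` is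
`√3` times a rational number -/
structure OK (um u0 up : ℂ) : Prop where
  h0 : 0 < h
  um1 : ‖um‖ = 1
  u01 : ‖u0‖ = 1
  up1 : ‖up‖ = 1
  rb1 : 1 + p.be ^ 2 / 2 ≤ p.rb
  c0' : 0 ≤ p.c
  c1 : p.c ≤ 1
  bc : p.be * p.c < 1
  ibm : p.rb * cr um u0 ≤ p.ib * (1 - p.be * p.c)
  ibp : p.rb * cr u0 up ≤ p.ib * (1 - p.be * p.c)
  pb : p.ib * (p.rb * p.c + p.be * (1 + p.ib)) ≤ h * p.pbar
  tlo0 : 0 < p.Tlo
  tlo : p.Tlo * (p.rb + p.be * p.c) * (2 * h) * √3 ≤ cr um up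
  thi : p.rb * cr um up ≤ p.Thi * (1 - p.be * p.c) * (2 * h) * √3
  ep1 : 60 * h * p.Thi ^ 2 ≤ 19 * p.ep
  ql0 : 0 < p.ql h
  wr0 : 0 < p.wr
  wr1 : 320 / 279 * p.ep ≤ (41 / 93 - p.wr) * p.Tlo
  n1lo : (2 * h * p.n1) ^ 2 ≤ ‖up - um‖ ^ 2
  n1hi : ‖up - um‖ ^ 2 ≤ (2 * h * p.n1') ^ 2
  n1hi0 : 0 ≤ p.n1'
  n2hi : ‖up - 2 * u0 + um‖ ^ 2 ≤ (h ^ 2 * p.n2) ^ 2
  n20 : 0 ≤ p.n2
  den : p.be * p.pbar < p.n1
  d1 : p.dnext h (2 * p.pbar) ≤ p.D1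
  d2 : p.dnext h (h * p.D1) ≤ p.Dbar
  wb : p.wnext h (h * p.Dbar) ≤ p.Wbar
  cc : 9 * p.Thi ^ 4 * (1 / p.ql h ^ 2 - 1) + 3 * p.Thi ^ 2 * (h * p.Dbar) ^ 2 / (4 * p.ql h) ≤ p.c0

end Par

/-- `(x, y)` lies in the triangle with the vertices `Ch / w0 * (0, 2/3)`, `Ch / w1 * (-1, -1/3)`,
`Ch / w2 * (1, -1/3)` -/
def InTri (Ch w0 w1 w2 x y : ℝ) : Prop :=
  ∃ l0 l1 l2 : ℝ, 0 ≤ l0 ∧ 0 ≤ l1 ∧ 0 ≤ l2 ∧ l0 + l1 + l2 = 1 ∧
    x = l1 * (-(Ch / w1)) + l2 * (Ch / w2) ∧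
    y = l0 * (2 / 3 * (Ch / w0)) + l1 * (-(1 / 3) * (Ch / w1)) + l2 * (-(1 / 3) * (Ch / w2))

/-- what is known about one cell -/
structure Out (p : Par) (L : Loc) : Prop where
  reg : Reg p.Tlo p.Thi p.ep L.Th L.Zx L.Zy
  zb : L.Zx ^ 2 + 3 * L.Zy ^ 2 ≤ 3 * p.c ^ 2 * L.Th ^ 2
  w0 : p.wr * L.Th ≤ L.Th - 2 * L.Zy
  w1 : p.wr * L.Th ≤ L.Th + L.Zy + L.Zx
  w2 : p.wr * L.Th ≤ L.Th + L.Zy - L.Zx
  th0 : 0 < p.wr * L.Th
  s0 : 0 ≤ L.s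
  qlo : p.ql L.h ≤ L.q
  qhi : L.q ≤ 1
  hP : ‖L.P‖ ≤ p.pbar
  hD : ‖L.D‖ ≤ p.Dbar
  hW : ‖L.W‖ ≤ p.Wbar
  hM : ‖L.bM‖ ≤ p.be
  hr1 : |L.r1| ≤ p.be * p.pbar
  hr2 : |L.r2| ≤ p.be * p.Dbar + p.pbar ^ 2
  hra : 1 ≤ L.ra ∧ L.ra ≤ p.rb
  hc0 : L.C0 ≤ L.s ^ 2 + p.c0
  tri : ∀ Ch, L.C0 ≤ Ch → 0 < Ch →
    InTri Ch (L.Th - 2 * L.Zy) (L.Th + L.Zy + L.Zx) (L.Th + L.Zy - L.Zx) L.Wx L.Wy

end Pool.Agent.Lib.MP_fb520c_co.Dent
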